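import Pool.Agent.N587.OX.Step
import Pool.Agent.N587.OT.Gap

set_option autoImplicit false
set_option linter.unusedSectionVars false

/-!
Turing reductions of small depth from parity to promise problems with a gap have exponential size.
-/

namespace Pool.Agent.N587.OX

open Finset H568R2 Pool.Agent.TH163.AC3 Pool.Agent.N587.OT

open scoped Classical

variable {n s l d : ℕ} {C : OCircuit n s l d}
  {Y Z : (m : ℕ) → (Fin m → Fin l → Bool) → Prop}

theorem iter {u : ℕ} (hu : 1 ≤ u) (hs : s ≤ 2 ^ u) (hl1 : 1 ≤ l) {γ : ℝ} (hγ0 : 0 < γ)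
    (hγ1 : γ ≤ 1) (hl : (l : ℝ) ≤ γ * 2 ^ u) (hn : 0 < n)
    (hgap : ∀ m b c, Y m b → Z m c → γ * m ≤ ((univ.filter fun i => b i ≠ c i).card : ℝ))
    (hpos : ∀ m b, Y m b → 0 < m) : ∀ t, t ≤ d → ∃ (ρ : Restr (Fin n))
      (F : Fin s → (Fin n → Bool) → Bool),
      (n : ℝ) * γ ^ t ≤ (2 ^ 60 * (l * u ^ 3)) ^ t * (st ρ).card ∧
      (∀ g, C.level g < t → HasDT (3 * u) (F g)) ∧ Sem C Y Z t ρ F := by
  have hu0 : (1 : ℝ) ≤ u := by exact_mod_cast hu
  have hl0 : (1 : ℝ) ≤ l := by exact_mod_cast hl1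
  have hn0 : (0 : ℝ) < n := by exact_mod_cast hn
  intro t
  induction t with
  | zero =>
    intro _
    refine ⟨fun _ => none, fun _ _ => false, ?_, fun g hg => absurd hg (Nat.not_lt_zero _), ?_⟩
    · have : st (fun _ : Fin n => (none : Option Bool)) = univ := by
        ext i
        simp [mem_st]
      rw [this, card_univ, Fintype.card_fin]
      simp
    · exact ⟨fun g hg => absurd hg (Nat.not_lt_zero _), fun g hg => absurd hg (Nat.not_lt_zero _),
        fun g g' hg => absurd hg (Nat.not_lt_zero _)⟩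
  | succ t ih =>
    intro ht
    obtain ⟨ρ, F, h1, h2, h3⟩ := ih (by omega)
    have hst : 0 < (st ρ).card := by
      rcases Nat.eq_zero_or_pos (st ρ).card with h | h
      · rw [h, Nat.cast_zero, mul_zero] at h1
        have : 0 < (n : ℝ) * γ ^ t := by positivity
        linarith
      · exact h
    obtain ⟨ρ', F', e1, e2, e3⟩ := step hu (by omega : t < d) hs hl1 hγ0 hγ1 hl hst h2 h3 hgap
      hpos
    refine ⟨ρ', F', ?_, e2, e3⟩
    calc (n : ℝ) * γ ^ (t + 1) = (n * γ ^ t) * γ := by ring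
      _ ≤ (2 ^ 60 * (l * u ^ 3)) ^ t * (st ρ).card * γ := mul_le_mul_of_nonneg_right h1 hγ0.le
      _ = (2 ^ 60 * (l * u ^ 3)) ^ t * ((st ρ).card * γ) := by ring
      _ ≤ (2 ^ 60 * (l * u ^ 3)) ^ t * (2 ^ 60 * (l * u ^ 3) * (st ρ').card) :=
          mul_le_mul_of_nonneg_left e1 (by positivity)
      _ = _ := by ring

/-- A circuit of depth `d` with at most `2 ^ u` gates which computes parity from all oracles for a
promise problem with gap `γ` has few inputs. -/
theorem parity_bound {u : ℕ} (hu : 1 ≤ u) (hs : s ≤ 2 ^ u) (hl1 : 1 ≤ l) {γ : ℝ} (hγ0 : 0 < γ)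
    (hγ1 : γ ≤ 1) (hl : (l : ℝ) ≤ γ * 2 ^ u)
    (hgap : ∀ m b c, Y m b → Z m c → γ * m ≤ ((univ.filter fun i => b i ≠ c i).card : ℝ))
    (hpos : ∀ m b, Y m b → 0 < m) (hpar : C.Parity Y Z) :
    (n : ℝ) * γ ^ d ≤ (2 ^ 60 * (l * u ^ 3)) ^ d * (3 * u) := by
  rcases Nat.eq_zero_or_pos n with hn | hn
  · subst hn
    simp only [Nat.cast_zero, zero_mul]
    positivity
  obtain ⟨ρ, F, h1, h2, h3⟩ := iter (C := C) hu hs hl1 hγ0 hγ1 hl hn hgap hpos d le_rfl
  have hYZ : ∀ m a, Y m a → Z m a → False := by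
    intro m a hY hZ
    have e1 := hgap m a a hY hZ
    have e2 := hpos m a hY
    have e3 : (0 : ℝ) < m := by exact_mod_cast e2
    have e4 : (univ.filter fun i => a i ≠ a i) = ∅ := by simp
    rw [e4, card_empty, Nat.cast_zero] at e1
    have := mul_pos hγ0 e3
    linarith
  have hdt := node_dt (C := C) (t := d) (K := 3 * u) (by omega) h2 (ρ := ρ) C.out
    (fun g _ => C.level_lt g)
  have hout : ∀ x : Fin n → Bool, (Sum.elim (ov ρ x) (fun g => F g x) C.out = true ↔
      Odd (univ.filter fun i => ov ρ x i = true).card) := by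
    intro x
    obtain ⟨O, hO1, hO2⟩ := h3.oracle hYZ x
    exact hpar O hO1 (ov ρ x) _ hO2
  have hsens := Y601.SSE.sens_le hdt (st ρ) fun _ => false
  have hall : (st ρ).filter (fun i => Sum.elim (ov ρ (Y601.SSE.flip i fun _ => false))
      (fun g => F g (Y601.SSE.flip i fun _ => false)) C.out ≠
      Sum.elim (ov ρ fun _ => false) (fun g => F g fun _ => false) C.out) = st ρ := by
    apply filter_true_of_mem
    intro i hi hsame
    rw [mem_st] at hi
    have e1 := hout fun _ => false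
    have e2 := hout (Y601.SSE.flip i fun _ => false)
    rw [hsame, Y601.SSE.ov_flip ρ i hi, Y601.SSE.odd_flip i (ov ρ fun _ => false)] at e2
    rw [e1] at e2
    exact iff_not_self e2
  have hcard : (st ρ).card ≤ 3 * u :=
    le_of_eq_of_le (congrArg Finset.card hall).symm hsens
  refine h1.trans ?_
  apply mul_le_mul_of_nonneg_left _ (by positivity)
  exact_mod_cast hcard

end Pool.Agent.N587.OX
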