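import Pool.Agent.N587.OX.Main

set_option autoImplicit false
set_option linter.unusedSectionVars false

/-!
The asymptotic form.
-/

namespace Pool.Agent.N587.OX

open Finset Pool.Agent.N587.OT

open scoped Classical

/-- circuits of depth `d` for parity, with oracle gates for a promise problem with a gap, have more
than `2 ^ (n ^ (1 / (3 d + 2)))` gates -/
theorem asym (d : ℕ) : ∃ e N₀ : ℕ, 1 ≤ e ∧ ∀ {n s l : ℕ} (C : OCircuit n s l d)
    {Y Z : (m : ℕ) → (Fin m → Fin l → Bool) → Prop} {γ : ℝ}, N₀ ≤ n →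
    (s : ℝ) ≤ 2 ^ ((n : ℝ) ^ (1 / (3 * d + 2 : ℝ))) → 1 ≤ l → l ^ e ≤ n → 0 < γ → γ ≤ 1 →
    1 ≤ γ ^ e * n →
    (∀ m b c, Y m b → Z m c → γ * m ≤ ((univ.filter fun i => b i ≠ c i).card : ℝ)) →
    (∀ m b, Y m b → 0 < m) → ¬ C.Parity Y Z := by
  obtain ⟨D, hD⟩ : ∃ D : ℕ, D = 3 * d + 2 := ⟨_, rfl⟩
  obtain ⟨B, hB⟩ : ∃ B : ℕ, B = 3 * 2 ^ (63 * d + 1) := ⟨_, rfl⟩
  have hB1 : 1 ≤ B := by
    rw [hB]
    have : 0 < 2 ^ (63 * d + 1) := by positivity
    omega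
  refine ⟨4 * D * (d + 1), B ^ (2 * D) + 1, by
    have : 0 < 4 * D * (d + 1) := by
      rw [hD]
      positivity
    omega, ?_⟩
  intro n s l C Y Z γ hn hs hl1 hl hγ0 hγ1 hγ hgap hpos hpar
  have hn1 : 1 ≤ n := by omega
  have hn0 : (0 : ℝ) < n := by exact_mod_cast hn1
  have hD0 : (0 : ℝ) < D := by
    rw [hD]
    positivity
  have hl0 : (1 : ℝ) ≤ l := by exact_mod_cast hl1
  -- the root
  obtain ⟨y, hy⟩ : ∃ y : ℝ, y = (n : ℝ) ^ (1 / (2 * D : ℝ)) := ⟨_, rfl⟩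
  have hy0 : 0 < y := by rw [hy]; positivity
  have hyn : y ^ (2 * D) = n := by
    rw [hy, ← Real.rpow_natCast, ← Real.rpow_mul hn0.le]
    push_cast
    rw [one_div, inv_mul_cancel₀ (by positivity), Real.rpow_one]
  have hBy : (B : ℝ) < y := by
    by_contra hcon
    push Not at hcon
    have h1 : y ^ (2 * D) ≤ (B : ℝ) ^ (2 * D) := pow_le_pow_left₀ hy0.le hcon _
    rw [hyn] at h1
    have h2 : n ≤ B ^ (2 * D) := by exact_mod_cast h1
    omega
  have hB0 : (1 : ℝ) ≤ B := by exact_mod_cast hB1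
  have hy1 : 1 ≤ y := by linarith
  have hx : (n : ℝ) ^ (1 / (3 * d + 2 : ℝ)) = y ^ 2 := by
    rw [hy, ← Real.rpow_natCast, ← Real.rpow_mul hn0.le]
    congr 1
    have : (D : ℝ) = 3 * d + 2 := by rw [hD]; push_cast; ring
    rw [← this]
    push_cast
    field_simp
  rw [hx] at hs
  -- the ratio
  obtain ⟨lam, hlam⟩ : ∃ lam : ℝ, lam = l / γ := ⟨_, rfl⟩
  have hlam1 : 1 ≤ lam := by
    rw [hlam, le_div_iff₀ hγ0]
    linarith
  have hlamy : lam ^ (d + 1) ≤ y := by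
    have h1 : lam ^ (4 * D * (d + 1)) ≤ (n : ℝ) ^ 2 := by
      rw [hlam, div_pow, div_le_iff₀ (by positivity)]
      have h2 : (l : ℝ) ^ (4 * D * (d + 1)) ≤ n := by exact_mod_cast hl
      calc (l : ℝ) ^ (4 * D * (d + 1)) ≤ n * 1 := by linarith
        _ ≤ n * (γ ^ (4 * D * (d + 1)) * n) := mul_le_mul_of_nonneg_left hγ hn0.le
        _ = _ := by ring
    have h3 : (lam ^ (d + 1)) ^ (4 * D) ≤ y ^ (4 * D) := by
      calc (lam ^ (d + 1)) ^ (4 * D) = lam ^ (4 * D * (d + 1)) := by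
            rw [← pow_mul]
            congr 1
            ring
        _ ≤ (n : ℝ) ^ 2 := h1
        _ = y ^ (4 * D) := by
            rw [← hyn, ← pow_mul]
            congr 1
            ring
    have hD4 : 4 * D ≠ 0 := by omega
    exact (pow_le_pow_iff_left₀ (by positivity) hy0.le hD4).1 h3
  have hlamd : lam ^ d ≤ y := by
    refine le_trans ?_ hlamy
    exact pow_le_pow_right₀ hlam1 (Nat.le_succ d)
  have hlam2 : lam ≤ y := by
    refine le_trans ?_ hlamy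
    calc lam = lam ^ 1 := (pow_one _).symm
      _ ≤ lam ^ (d + 1) := pow_le_pow_right₀ hlam1 (by omega)
  -- the parameter
  obtain ⟨u, hu⟩ : ∃ u : ℕ, u = ⌈y ^ 2⌉₊ := ⟨_, rfl⟩
  have hu1 : y ^ 2 ≤ u := by rw [hu]; exact Nat.le_ceil _
  have hu2 : (u : ℝ) ≤ 2 * y ^ 2 := by
    have h1 : (u : ℝ) < y ^ 2 + 1 := by
      rw [hu]
      exact Nat.ceil_lt_add_one (by positivity)
    nlinarith
  have hyy : y ≤ y ^ 2 := by nlinarith
  have huy : 1 ≤ u := by
    have : (1 : ℝ) ≤ u := by linarith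
    exact_mod_cast this
  have hs2 : s ≤ 2 ^ u := by
    have h1 : (2 : ℝ) ^ (y ^ 2) ≤ 2 ^ (u : ℝ) :=
      Real.rpow_le_rpow_of_exponent_le (by norm_num) hu1
    rw [Real.rpow_natCast] at h1
    have h2 : (s : ℝ) ≤ 2 ^ u := hs.trans h1
    exact_mod_cast h2
  have hl2 : (l : ℝ) ≤ γ * 2 ^ u := by
    have h1 : lam ≤ 2 ^ u := by
      have := le_two_pow u
      linarith
    rw [hlam, div_le_iff₀ hγ0] at h1
    linarith
  have hmain := parity_bound (C := C) huy hs2 hl1 hγ0 hγ1 hl2 hgap hpos hpar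
  -- the contradiction
  have h1 : (n : ℝ) ≤ lam ^ d * ((2 ^ 60 * (u : ℝ) ^ 3) ^ d * (3 * u)) := by
    have h2 : (n : ℝ) * γ ^ d ≤ lam ^ d * ((2 ^ 60 * (u : ℝ) ^ 3) ^ d * (3 * u)) * γ ^ d := by
      calc (n : ℝ) * γ ^ d ≤ _ := hmain
        _ = (l : ℝ) ^ d * ((2 ^ 60 * (u : ℝ) ^ 3) ^ d * (3 * u)) := by
            rw [mul_pow, mul_pow, mul_pow]
            ring
        _ = _ := by
            rw [hlam, div_pow]
            field_simp
    exact le_of_mul_le_mul_right h2 (by positivity)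
  have h2 : (2 ^ 60 * (u : ℝ) ^ 3) ^ d * (3 * u) ≤ B * y ^ (6 * d + 2) := by
    calc (2 ^ 60 * (u : ℝ) ^ 3) ^ d * (3 * u)
        ≤ (2 ^ 60 * (2 * y ^ 2) ^ 3) ^ d * (3 * (2 * y ^ 2)) := by
          have e1 : (u : ℝ) ^ 3 ≤ (2 * y ^ 2) ^ 3 :=
            pow_le_pow_left₀ (Nat.cast_nonneg _) hu2 3
          apply mul_le_mul _ _ (by positivity) (by positivity)
          · apply pow_le_pow_left₀ (by positivity)
            linarith
          · linarith
      _ = B * y ^ (6 * d + 2) := by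
          rw [hB]
          push_cast
          have e2 : (2 ^ 60 * (2 * y ^ 2) ^ 3 : ℝ) = 2 ^ 63 * y ^ 6 := by ring
          rw [e2, mul_pow, ← pow_mul, ← pow_mul]
          ring
  have h3 : (n : ℝ) ≤ B * y ^ (6 * d + 3) := by
    calc (n : ℝ) ≤ lam ^ d * ((2 ^ 60 * (u : ℝ) ^ 3) ^ d * (3 * u)) := h1
      _ ≤ y * (B * y ^ (6 * d + 2)) := mul_le_mul hlamd h2 (by positivity) hy0.le
      _ = _ := by ring
  have h4 : (n : ℝ) = y * y ^ (6 * d + 3) := by
    rw [← hyn, hD]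
    ring
  rw [h4] at h3
  have h5 := le_of_mul_le_mul_right h3 (by positivity)
  linarith

end Pool.Agent.N587.OX
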