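import Pool.Agent.N587.OX.Tr

set_option autoImplicit false
set_option linter.unusedSectionVars false

/-!
Counting.
-/

namespace Pool.Agent.N587.OX

open Finset H568R2 Pool.Agent.TH163.AC3 Pool.Agent.N587.OT

open scoped Classical

variable {I : Type} [Fintype I] [DecidableEq I]

/-- the number of the points in a subcube -/
theorem card_subcube (A : Finset I) (x : I → Bool) :
    (univ.filter fun y : I → Bool => ∀ i ∈ A, y i = x i).card * 2 ^ A.card =
      2 ^ Fintype.card I := by
  have h1 : (univ.filter fun y : I → Bool => ∀ i ∈ A, y i = x i) =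
      Fintype.piFinset fun i => if i ∈ A then {x i} else univ := by
    ext y
    rw [mem_filter, Fintype.mem_piFinset]
    constructor
    · intro h i
      by_cases hi : i ∈ A
      · rw [if_pos hi, mem_singleton]
        exact h.2 i hi
      · rw [if_neg hi]
        exact mem_univ _
    · intro h
      refine ⟨mem_univ _, fun i hi => ?_⟩
      have := h i
      rw [if_pos hi, mem_singleton] at this
      exact this
  rw [h1, Fintype.card_piFinset]
  have h2 : ∀ i, (if i ∈ A then ({x i} : Finset Bool) else univ).card = if i ∈ A then 1 else 2 := by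
    intro i
    by_cases hi : i ∈ A
    · simp [hi]
    · simp [hi]
  have h3 : 2 ^ A.card = ∏ i : I, if i ∈ A then 2 else 1 := by
    rw [prod_ite_mem, univ_inter, prod_const]
  rw [prod_congr rfl fun i _ => h2 i, h3, ← prod_mul_distrib]
  have h4 : ∀ i ∈ (univ : Finset I), ((if i ∈ A then 1 else 2) * if i ∈ A then 2 else 1) = 2 := by
    intro i _
    by_cases hi : i ∈ A
    · simp [hi]
    · simp [hi]
  rw [prod_congr rfl h4, prod_const, card_univ]

/-- if a property of the leaves of a tree holds somewhere then the leaves with this property,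
counted with weight `2 ^ depth`, fill the cube once -/
theorem leaf_count (R : (I → Bool) → Finset I) (P : (I → Bool) → Prop)
    (hR : ∀ x y, (∀ i ∈ R x, y i = x i) → R y = R x)
    (hP : ∀ x y, (∀ i ∈ R x, y i = x i) → P x → P y) (hex : ∃ x, P x) :
    (2 : ℝ) ^ Fintype.card I ≤ ∑ y, if P y then (2 : ℝ) ^ (R y).card else 0 := by
  obtain ⟨x, hx⟩ := hex
  have h1 : ∑ y ∈ univ.filter (fun y : I → Bool => ∀ i ∈ R x, y i = x i),
      (if P y then (2 : ℝ) ^ (R y).card else 0) = 2 ^ Fintype.card I := by
    have h2 : ∀ y ∈ univ.filter (fun y : I → Bool => ∀ i ∈ R x, y i = x i),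
        (if P y then (2 : ℝ) ^ (R y).card else 0) = 2 ^ (R x).card := by
      intro y hy
      have hy' := (mem_filter.1 hy).2
      rw [if_pos (hP x y hy' hx), hR x y hy']
    rw [sum_congr rfl h2, sum_const, nsmul_eq_mul]
    have h3 := card_subcube (R x) x
    exact_mod_cast h3
  rw [← h1]
  apply sum_le_sum_of_subset_of_nonneg (filter_subset _ _)
  intro y _ _
  split_ifs
  · positivity
  · exact le_rfl

/-- a restriction and values for the free variables are a point and a set of free variables -/
theorem exchange (R : (I → Bool) → Finset I) (q c : ℝ) :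
    ∑ τ : Restr I, (∏ i, wq q (τ i)) * ∑ y : I → Bool, c ^ (R (ov τ y) ∩ st τ).card =
      ∑ x : I → Bool, (1 - q + c * q) ^ (R x).card := by
  -- the weight of one coordinate
  obtain ⟨g, hg⟩ : ∃ g : (I → Bool) → I → Option Bool × Bool → ℝ, g = fun x i p =>
    if p.1.getD p.2 = x i then wq q p.1 * (if i ∈ R x ∧ p.1 = none then c else 1) else 0 :=
    ⟨_, rfl⟩
  have h1 : ∀ x : I → Bool, (1 - q + c * q) ^ (R x).card = ∏ i, ∑ p : Option Bool × Bool,
      g x i p := by
    intro x
    have h2 : ∀ i, ∑ p : Option Bool × Bool, g x i p = if i ∈ R x then 1 - q + c * q else 1 := by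
      intro i
      rw [hg, Fintype.sum_prod_type, Fintype.sum_option, Fintype.sum_bool, Fintype.sum_bool,
        Fintype.sum_bool, Fintype.sum_bool]
      by_cases hi : i ∈ R x
      · rcases hx : x i with _ | _ <;> simp [hi, hx, wq] <;> ring
      · rcases hx : x i with _ | _ <;> simp [hi, hx, wq] <;> ring
    rw [prod_congr rfl fun i _ => h2 i, prod_ite_mem, univ_inter, prod_const]
  have h3 : ∀ x : I → Bool, ∏ i, ∑ p : Option Bool × Bool, g x i p =
      ∑ p : I → Option Bool × Bool, ∏ i, g x i (p i) := by
    intro x
    rw [prod_univ_sum]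
    rw [Fintype.piFinset_univ]
  rw [sum_congr rfl fun x _ => h1 x, sum_congr rfl fun x _ => h3 x, sum_comm]
  have h4 : ∀ p : I → Option Bool × Bool, ∑ x : I → Bool, ∏ i, g x i (p i) =
      (∏ i, wq q (p i).1) * c ^ (R (ov (fun i => (p i).1) fun i => (p i).2) ∩
        st fun i => (p i).1).card := by
    intro p
    rw [sum_eq_single (ov (fun i => (p i).1) fun i => (p i).2)]
    · have h5 : ∀ i, g (ov (fun i => (p i).1) fun i => (p i).2) i (p i) = wq q (p i).1 *
          (if i ∈ R (ov (fun i => (p i).1) fun i => (p i).2) ∩ st (fun i => (p i).1)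
            then c else 1) := by
        intro i
        rw [hg]
        simp only
        rw [if_pos (show (p i).1.getD (p i).2 = ov (fun i => (p i).1) (fun i => (p i).2) i from
          rfl)]
        congr 1
        simp only [mem_inter, mem_st]
      rw [prod_congr rfl fun i _ => h5 i, prod_mul_distrib, prod_ite_mem, univ_inter, prod_const]
    · intro x _ hx
      obtain ⟨i, hi⟩ := Function.ne_iff.1 hx
      apply prod_eq_zero (mem_univ i)
      rw [hg]
      simp only
      rw [if_neg]
      intro h
      exact hi h.symm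
    · intro h
      exact absurd (mem_univ _) h
  rw [sum_congr rfl fun p _ => h4 p]
  rw [← (Equiv.arrowProdEquivProdArrow I (fun _ => Option Bool) (fun _ => Bool)).symm.sum_comp,
    Fintype.sum_prod_type]
  apply sum_congr rfl
  intro τ _
  rw [mul_sum]
  rfl

/-- choose `r` of the sets `a i` at random; if many sets are not contained in the union then the
union is large -/
theorem chosen (m : ℕ) (a : Fin m → Finset I) {γ : ℝ} (hγ1 : γ ≤ 1) : ∀ (r : ℕ) (B : Finset I),
    ∑ σ : Fin r → Fin m, (if γ * m ≤ ((univ.filter fun i => ¬ a i ⊆ B ∪ univ.biUnion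
      fun j => a (σ j)).card : ℝ) then ((1 : ℝ) / 2) ^ (B ∪ univ.biUnion
      fun j => a (σ j)).card else 0) ≤ (1 / 2) ^ B.card * (m * (1 - γ / 2)) ^ r := by
  intro r
  have hm0 : (0 : ℝ) ≤ m := Nat.cast_nonneg _
  have hb0 : 0 ≤ (m : ℝ) * (1 - γ / 2) := mul_nonneg hm0 (by linarith)
  induction r with
  | zero =>
    intro B
    rw [Fintype.sum_unique]
    have h1 : (univ : Finset (Fin 0)).biUnion (fun j => a ((default : Fin 0 → Fin m) j)) = ∅ := by
      rw [univ_eq_empty, biUnion_empty]
    rw [h1, union_empty, pow_zero, mul_one]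
    split_ifs
    · exact le_rfl
    · positivity
  | succ r ih =>
    intro B
    rw [← (Fin.consEquiv fun _ : Fin (r + 1) => Fin m).sum_comp, Fintype.sum_prod_type]
    have hU : ∀ (i : Fin m) (σ : Fin r → Fin m), B ∪ univ.biUnion (fun j =>
        a ((Fin.consEquiv fun _ : Fin (r + 1) => Fin m) (i, σ) j)) =
        (B ∪ a i) ∪ univ.biUnion fun j => a (σ j) := by
      intro i σ
      ext z
      simp only [mem_union, mem_biUnion, mem_univ, true_and, Fin.consEquiv_apply]
      constructor
      · rintro (h | ⟨j, hj⟩)
        · exact Or.inl (Or.inl h)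
        · revert hj
          refine Fin.cases ?_ (fun j => ?_) j
          · intro hj
            exact Or.inl (Or.inr (by simpa using hj))
          · intro hj
            exact Or.inr ⟨j, by simpa using hj⟩
      · rintro ((h | h) | ⟨j, hj⟩)
        · exact Or.inl h
        · exact Or.inr ⟨0, by simpa using h⟩
        · exact Or.inr ⟨j.succ, by simpa using hj⟩
    simp only [hU]
    by_cases hB : γ * m ≤ ((univ.filter fun i => ¬ a i ⊆ B).card : ℝ)
    · refine (sum_le_sum fun i _ => ih (B ∪ a i)).trans ?_
      rw [← sum_mul, pow_succ, ← mul_assoc, mul_right_comm]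
      apply mul_le_mul_of_nonneg_right _ (pow_nonneg hb0 r)
      have h1 : ∀ i ∈ (univ : Finset (Fin m)), ((1 : ℝ) / 2) ^ (B ∪ a i).card ≤
          (1 / 2) ^ B.card * (1 - (if ¬ a i ⊆ B then 1 else 0) * (1 / 2)) := by
        intro i _
        by_cases hi : a i ⊆ B
        · rw [union_eq_left.2 hi]
          simp [hi]
        · simp only [hi, not_false_eq_true, if_true]
          have h2 : B.card + 1 ≤ (B ∪ a i).card := by
            apply Nat.succ_le_of_lt
            apply card_lt_card
            refine ⟨subset_union_left, fun h => hi fun z hz => h (mem_union_right _ hz)⟩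
          calc ((1 : ℝ) / 2) ^ (B ∪ a i).card ≤ (1 / 2) ^ (B.card + 1) :=
                pow_le_pow_of_le_one (by norm_num) (by norm_num) h2
            _ = (1 / 2) ^ B.card * (1 - 1 * (1 / 2)) := by rw [pow_succ]; norm_num
      refine (sum_le_sum h1).trans ?_
      rw [← mul_sum]
      apply mul_le_mul_of_nonneg_left _ (by positivity)
      rw [sum_sub_distrib, sum_const, card_univ, Fintype.card_fin, nsmul_eq_mul, mul_one,
        ← sum_mul]
      have h3 : ∑ i : Fin m, (if ¬ a i ⊆ B then (1 : ℝ) else 0) =
          ((univ.filter fun i => ¬ a i ⊆ B).card : ℝ) := by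
        rw [card_filter]
        push_cast
        rfl
      rw [h3]
      linarith
    · have h0 : ∀ i ∈ (univ : Finset (Fin m)), ∑ σ : Fin r → Fin m,
          (if γ * m ≤ ((univ.filter fun i' => ¬ a i' ⊆ (B ∪ a i) ∪ univ.biUnion
            fun j => a (σ j)).card : ℝ) then ((1 : ℝ) / 2) ^ ((B ∪ a i) ∪ univ.biUnion
            fun j => a (σ j)).card else 0) = 0 := by
        intro i _
        apply sum_eq_zero
        intro σ _
        rw [if_neg]
        intro h
        apply hB
        refine h.trans ?_
        have : (univ.filter fun i' => ¬ a i' ⊆ (B ∪ a i) ∪ univ.biUnion fun j => a (σ j)) ⊆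
            univ.filter fun i => ¬ a i ⊆ B := by
          intro i' hi'
          rw [mem_filter] at hi' ⊢
          exact ⟨mem_univ _, fun h' => hi'.2 (h'.trans
            (subset_union_left.trans subset_union_left))⟩
        exact_mod_cast card_le_card this
      rw [sum_eq_zero h0]
      positivity

end Pool.Agent.N587.OX
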