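import Pool.Agent.N587.OX.Gs

set_option autoImplicit false
set_option linter.unusedSectionVars false

/-!
The gates of a circuit whose predecessors have shallow decision trees.
-/

namespace Pool.Agent.N587.OX

open Finset H568R2 Pool.Agent.TH163.AC3 Pool.Agent.N587.OT

open scoped Classical

section gen

variable {I : Type} [Fintype I] [DecidableEq I]

theorem cert_forall {α : Type} {K : ℕ} (P : α → Prop) (p : α → (I → Bool) → Bool)
    (h : ∀ a, P a → HasDT K (p a)) {f : (I → Bool) → Bool}
    (hf : ∀ y, f y = true ↔ ∀ a, P a → p a y = true) : Cert K false f := by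
  intro x hx
  have hx' : ¬ ∀ a, P a → p a x = true := by
    rw [← hf, hx]
    simp
  push Not at hx'
  obtain ⟨a, ha, hpa⟩ := hx'
  obtain ⟨A, hA, hy⟩ := (h a ha).cert false x (by simpa using hpa)
  refine ⟨A, hA, fun y hxy => ?_⟩
  rw [← Bool.not_eq_true, hf]
  intro hall
  have := hall a ha
  rw [hy y hxy] at this
  exact absurd this (by simp)

theorem cert_exists {α : Type} {K : ℕ} (P : α → Prop) (p : α → (I → Bool) → Bool)
    (h : ∀ a, P a → HasDT K (p a)) {f : (I → Bool) → Bool}
    (hf : ∀ y, f y = true ↔ ∃ a, P a ∧ p a y = true) : Cert K true f := by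
  intro x hx
  obtain ⟨a, ha, hpa⟩ := (hf x).1 hx
  obtain ⟨A, hA, hy⟩ := (h a ha).cert true x hpa
  refine ⟨A, hA, fun y hxy => ?_⟩
  rw [hf]
  exact ⟨a, ha, hy y hxy⟩

theorem cert_mono {K K' : ℕ} {b : Bool} {f : (I → Bool) → Bool} (h : Cert K b f) (hK : K ≤ K') :
    Cert K' b f := by
  intro x hx
  obtain ⟨A, hA, hy⟩ := h x hx
  exact ⟨A, hA.trans hK, hy⟩

/-- a restriction which is good for a family of words -/
theorem restr_gs {ι : Type} [Fintype ι] (m : ι → ℕ) (Tr : ∀ j, Fin (m j) → DTree I) {D : ℕ}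
    (hD : ∀ j i x, ((Tr j i).reads x).card ≤ D) {γ : ℝ} (hγ1 : γ ≤ 1) {k r : ℕ}
    (hr : 4 ^ k * (1 - γ / 2) ^ r ≤ 1 / 2) {q z : ℝ} (h0 : 0 < q) (h1 : q ≤ 1 / 3) (hz : 1 ≤ z)
    (ρ : Restr I) (hM : 0 < (st ρ).card)
    (hk : (Fintype.card ι : ℝ) * (2 * (1 - q + 2 * z * q) ^ (r * D) / z ^ (k + 1)) ≤ q / 2) :
    ∃ τ : Restr I, (∀ j, 0 < m j → Good (Tr j) γ k r τ) ∧
      ((st ρ).card : ℝ) * q / 4 ≤ (st (cmp ρ τ)).card := by
  have hw : ∀ a, 0 ≤ wq q a := wq_nonneg h0.le (by linarith)
  obtain ⟨bad, hbd⟩ : ∃ bad : Restr I → Prop,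
    bad = fun τ => ¬ ∀ j, 0 < m j → Good (Tr j) γ k r τ := ⟨_, rfl⟩
  obtain ⟨τ, hτ, hst⟩ := exists_good ρ bad h0 h1 hM (by
    have hpt : ∀ τ : Restr I, (if bad τ then (1 : ℝ) else 0) ≤
        ∑ j, if 0 < m j then (if ¬ Good (Tr j) γ k r τ then (1 : ℝ) else 0) else 0 := by
      intro τ
      have hnn : ∀ j ∈ (univ : Finset ι),
          (0 : ℝ) ≤ if 0 < m j then (if ¬ Good (Tr j) γ k r τ then (1 : ℝ) else 0) else 0 := by
        intro j _
        split_ifs <;> norm_num
      by_cases hall : bad τ
      swap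
      · rw [if_neg hall]
        exact sum_nonneg hnn
      · rw [if_pos hall]
        rw [hbd] at hall
        push Not at hall
        obtain ⟨j, hj1, hj⟩ := hall
        refine le_trans ?_ (Finset.single_le_sum hnn (mem_univ j))
        rw [if_pos hj1, if_pos hj]
    refine (Ex_mono hw hpt).trans ?_
    rw [Ex_sum univ (wq q) fun (j : ι) (τ : Restr I) =>
      if 0 < m j then (if ¬ Good (Tr j) γ k r τ then (1 : ℝ) else 0) else 0]
    have h2 : ∀ j ∈ (univ : Finset ι), Ex (wq q) (fun τ : Restr I =>
        if 0 < m j then (if ¬ Good (Tr j) γ k r τ then (1 : ℝ) else 0) else 0) ≤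
        2 * (1 - q + 2 * z * q) ^ (r * D) / z ^ (k + 1) := by
      intro j _
      by_cases hj : 0 < m j
      · simp only [hj, if_true]
        exact gs hj (Tr j) (hD j) hγ1 hr h0.le (by linarith) hz
      · simp only [hj, if_false]
        rw [Ex_const (wq_sum q)]
        have : 0 ≤ 1 - q + 2 * z * q := by nlinarith
        positivity
    refine (sum_le_card_nsmul _ _ _ h2).trans ?_
    rw [nsmul_eq_mul, card_univ]
    exact hk)
  rw [hbd] at hτ
  exact ⟨τ, not_not.1 hτ, hst⟩

end gen

variable {n s l d : ℕ} {C : OCircuit n s l d}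
  {Y Z : (m : ℕ) → (Fin m → Fin l → Bool) → Prop}

theorem read_lt {g : Fin s} {t : ℕ} (hg : C.level g ≤ t) {u : Node n s}
    (hu : u ∈ (C.gate g).reads) : ∀ g', u = Sum.inr g' → C.level g' < t := by
  intro g' h
  have := C.acyclic g g' (h ▸ hu)
  omega

theorem node_dt {t K : ℕ} (hK : 1 ≤ K) {ρ : Restr (Fin n)} {F : Fin s → (Fin n → Bool) → Bool}
    (hF : ∀ g, C.level g < t → HasDT K (F g)) (u : Node n s)
    (hu : ∀ g, u = Sum.inr g → C.level g < t) :
    HasDT K fun y => Sum.elim (ov ρ y) (fun h => F h y) u := by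
  cases u with
  | inl i =>
    cases hρ : ρ i with
    | some b =>
      apply hasDT_const b
      intro x
      show ov ρ x i = b
      unfold ov
      rw [hρ]
      rfl
    | none =>
      refine ⟨TH163.AC3.Tree.node i (TH163.AC3.Tree.leaf false) (TH163.AC3.Tree.leaf true),
        ?_, ?_⟩
      · unfold TH163.AC3.Tree.depth
        simp only [TH163.AC3.Tree.depth]
        omega
      · intro x
        show _ = ov ρ x i
        have h1 : ov ρ x i = x i := by
          unfold ov
          rw [hρ]
          rfl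
        rw [h1]
        unfold TH163.AC3.Tree.eval
        rcases hx : x i with _ | _
        · simp [TH163.AC3.Tree.eval]
        · simp [TH163.AC3.Tree.eval]
  | inr g => exact hF g (hu g rfl)

theorem ord_cert {t K : ℕ} (hK : 1 ≤ K) {ρ : Restr (Fin n)} {F : Fin s → (Fin n → Bool) → Bool}
    (hF : ∀ g, C.level g < t → HasDT K (F g)) {g : Fin s} (hg : C.level g ≤ t) :
    ∃ b, Cert K b fun y => ordv (C.gate g) (ov ρ y) fun h => F h y := by
  have key : ∀ u ∈ (C.gate g).reads, HasDT K fun y => Sum.elim (ov ρ y) (fun h => F h y) u :=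
    fun u hu => node_dt hK hF u (read_lt hg hu)
  cases hG : C.gate g with
  | and S =>
    rw [hG] at key
    refine ⟨false, cert_forall (fun u => u ∈ S)
      (fun u y => Sum.elim (ov ρ y) (fun h => F h y) u) key fun y => ?_⟩
    unfold ordv
    simp only [decide_eq_true_eq]
  | or S =>
    rw [hG] at key
    refine ⟨true, cert_exists (fun u => u ∈ S)
      (fun u y => Sum.elim (ov ρ y) (fun h => F h y) u) key fun y => ?_⟩
    unfold ordv
    simp only [decide_eq_true_eq]
  | not u =>
    rw [hG] at key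
    exact ⟨true, ((key u rfl).not).cert true⟩
  | ask m w =>
    refine ⟨true, fun x hx => ?_⟩
    exact absurd hx (by simp [ordv])

theorem ef_cert {t K : ℕ} (hK : 1 ≤ K) {ρ : Restr (Fin n)} {F : Fin s → (Fin n → Bool) → Bool}
    (hF : ∀ g, C.level g < t → HasDT K (F g)) {g g' : Fin s} (hg : C.level g ≤ t)
    (hg' : C.level g' ≤ t) : Cert (2 * K) false (ef C ρ F g g') := by
  have key : ∀ u ∈ (C.gate g).reads, HasDT K fun y => Sum.elim (ov ρ y) (fun h => F h y) u :=
    fun u hu => node_dt hK hF u (read_lt hg hu)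
  have key' : ∀ u ∈ (C.gate g').reads, HasDT K fun y => Sum.elim (ov ρ y) (fun h => F h y) u :=
    fun u hu => node_dt hK hF u (read_lt hg' hu)
  -- if there are no equal queries at all
  have hconst : (∀ y, ef C ρ F g g' y = false) → Cert (2 * K) false (ef C ρ F g g') :=
    fun h x _ => ⟨∅, by simp, fun y _ => h y⟩
  by_cases hask : ∃ m w w', C.gate g = Gate.ask m w ∧ C.gate g' = Gate.ask m w'
  · obtain ⟨m, w, w', hw, hw'⟩ := hask
    have h1 : ∀ y, ef C ρ F g g' y = true ↔ ∀ p : Fin m × Fin l, True →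
        (Sum.elim (ov ρ y) (fun h => F h y) (w p.1 p.2) ==
          Sum.elim (ov ρ y) (fun h => F h y) (w' p.1 p.2)) = true := by
      intro y
      unfold ef
      rw [decide_eq_true_eq, hw, hw']
      constructor
      · rintro ⟨q, h1, h2⟩ p _
        have h3 : (some ⟨m, fun i c => Sum.elim (ov ρ y) (fun h => F h y) (w i c)⟩ :
            Option (Σ m, Fin m → Fin l → Bool)) =
            some ⟨m, fun i c => Sum.elim (ov ρ y) (fun h => F h y) (w' i c)⟩ := by
          exact h1.trans h2.symm
        have h4 := eq_of_heq (Sigma.mk.inj (Option.some.inj h3)).2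
        have h5 := congrFun (congrFun h4 p.1) p.2
        rw [beq_iff_eq]
        exact h5
      · intro h
        refine ⟨⟨m, fun i c => Sum.elim (ov ρ y) (fun h => F h y) (w i c)⟩, rfl, ?_⟩
        have : (fun i c => Sum.elim (ov ρ y) (fun h => F h y) (w' i c)) =
            fun i c => Sum.elim (ov ρ y) (fun h => F h y) (w i c) := by
          funext i c
          have h2 := h (i, c) trivial
          rw [beq_iff_eq] at h2
          exact h2.symm
        show (some ⟨m, fun i c => Sum.elim (ov ρ y) (fun h => F h y) (w' i c)⟩ :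
          Option (Σ m, Fin m → Fin l → Bool)) = _
        rw [this]
    refine cert_forall (fun _ : Fin m × Fin l => True) (fun (p : Fin m × Fin l)
      (y : Fin n → Bool) => Sum.elim (ov ρ y) (fun h => F h y) (w p.1 p.2) ==
          Sum.elim (ov ρ y) (fun h => F h y) (w' p.1 p.2)) ?_ h1
    intro p _
    rw [two_mul]
    apply hasDT_op (fun a b => a == b)
    · apply key
      rw [hw]
      exact ⟨p.1, p.2, rfl⟩
    · apply key'
      rw [hw']
      exact ⟨p.1, p.2, rfl⟩
  · apply hconst
    intro y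
    unfold ef
    rw [decide_eq_false_iff_not]
    rintro ⟨q, h1, h2⟩
    apply hask
    cases hG : C.gate g with
    | and S => rw [hG] at h1; simp [qry] at h1
    | or S => rw [hG] at h1; simp [qry] at h1
    | not u => rw [hG] at h1; simp [qry] at h1
    | ask m w =>
      cases hG' : C.gate g' with
      | and S => rw [hG'] at h2; simp [qry] at h2
      | or S => rw [hG'] at h2; simp [qry] at h2
      | not u => rw [hG'] at h2; simp [qry] at h2
      | ask m' w' =>
        rw [hG] at h1
        rw [hG'] at h2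
        have h3 : m = m' := by
          have e1 := congrArg Sigma.fst (Option.some.inj h1)
          have e2 := congrArg Sigma.fst (Option.some.inj h2)
          exact e1.trans e2.symm
        subst h3
        exact ⟨m, w, w', rfl, rfl⟩

/-- the raw answers of all oracle gates of level `t` -/
theorem raw_all {t K : ℕ} (hK : 1 ≤ K) {ρ : Restr (Fin n)}
    {F : Fin s → (Fin n → Bool) → Bool} (hF : ∀ g, C.level g < t → HasDT K (F g))
    {γ : ℝ} (hγ1 : γ ≤ 1)
    (hgap : ∀ m b c, Y m b → Z m c → γ * m ≤ ((univ.filter fun i => b i ≠ c i).card : ℝ))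
    (hpos : ∀ m b, Y m b → 0 < m) {k r : ℕ} (hr : 4 ^ k * (1 - γ / 2) ^ r ≤ 1 / 2) {q z : ℝ}
    (h0 : 0 < q) (h1 : q ≤ 1 / 3) (hz : 1 ≤ z) (hM : 0 < (st ρ).card)
    (hk : (s : ℝ) * (2 * (1 - q + 2 * z * q) ^ (r * (l * K)) / z ^ (k + 1)) ≤ q / 2) :
    ∃ (τ : Restr (Fin n)) (f : Fin s → (Fin n → Bool) → Bool),
      ((st ρ).card : ℝ) * q / 4 ≤ (st (cmp ρ τ)).card ∧ ∀ g, C.level g = t →
        HasDT k (f g) ∧
          ∀ y q, qry (C.gate g) (ov (cmp ρ τ) y) (fun h => rs (F h) τ y) = some q →
            (Y q.1 q.2 → f g y = true) ∧ (Z q.1 q.2 → f g y = false) := by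
  -- one gate at a time
  have key : ∀ g : Fin s, ∃ (m : ℕ) (Tr : Fin m → DTree (Fin n)),
      (∀ i x, ((Tr i).reads x).card ≤ l * K) ∧
      ∀ τ : Restr (Fin n), (0 < m → Good Tr γ k r τ) → ∃ f : (Fin n → Bool) → Bool,
        C.level g = t → HasDT k f ∧
          ∀ y q, qry (C.gate g) (ov (cmp ρ τ) y) (fun h => rs (F h) τ y) = some q →
            (Y q.1 q.2 → f y = true) ∧ (Z q.1 q.2 → f y = false) := by
    intro g
    by_cases hask : C.level g = t ∧ ∃ m w, C.gate g = Gate.ask m w
    swap
    · refine ⟨0, fun i => i.elim0, fun i => i.elim0, fun τ _ => ⟨fun _ => false, fun hg =>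
        ⟨hasDT_const false (fun _ => rfl) k, ?_⟩⟩⟩
      intro y q hq
      exfalso
      apply hask
      refine ⟨hg, ?_⟩
      cases hG : C.gate g with
      | and S => rw [hG] at hq; simp [qry] at hq
      | or S => rw [hG] at hq; simp [qry] at hq
      | not u => rw [hG] at hq; simp [qry] at hq
      | ask m w => exact ⟨m, w, rfl⟩
    · obtain ⟨hg, m, w, hw⟩ := hask
      have hq0 : ∀ (x : Fin n → Bool) (v : Fin s → Bool) (q : Σ m, Fin m → Fin l → Bool),
          qry (C.gate g) x v = some q → q = ⟨m, fun i c => Sum.elim x v (w i c)⟩ := by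
        intro x v q hq
        rw [hw] at hq
        exact (Option.some.inj hq).symm
      have hj : ∀ i c, HasDT K fun y => Sum.elim (ov ρ y) (fun h => F h y) (w i c) := by
        intro i c
        apply node_dt hK hF
        apply read_lt (le_of_eq hg)
        rw [hw]
        exact ⟨i, c, rfl⟩
      choose tr htr1 htr2 using hj
      refine ⟨m, fun i => big (List.ofFn (tr i)), ?_, ?_⟩
      · intro i x
        exact card_big (tr i) (fun c x => ((tr i c).card_reads x).trans (htr1 i c)) x
      · intro τ hG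
        rcases Nat.eq_zero_or_pos m with hm | hm
        · refine ⟨fun _ => false, fun _ => ⟨hasDT_const false (fun _ => rfl) k, ?_⟩⟩
          intro y q hq
          have hqq := hq0 _ _ _ hq
          refine ⟨fun hY => ?_, fun _ => rfl⟩
          have h1 := hpos _ _ hY
          have h2 : q.1 = m := by rw [hqq]
          omega
        · obtain ⟨f, hf1, hf2⟩ := answer (fun i => big (List.ofFn (tr i))) (hG hm)
            (fun y i c => Sum.elim (ov ρ y) (fun h => F h y) (w i c)) (by
              intro i x y hxy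
              funext c
              show Sum.elim (ov ρ y) (fun h => F h y) (w i c) =
                Sum.elim (ov ρ x) (fun h => F h x) (w i c)
              have e1 := htr2 i c y
              have e2 := htr2 i c x
              have e3 : (tr i c).eval y = (tr i c).eval x := ((tr i c).congr x y (by
                intro j hj
                apply hxy
                rw [reads_big_ofFn]
                exact mem_biUnion.2 ⟨c, mem_univ c, hj⟩)).1
              rw [e1, e2] at e3
              exact e3) (hgap m)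
          refine ⟨f, fun _ => ⟨hf1, ?_⟩⟩
          intro y q hq
          have hqq := hq0 _ _ _ hq
          rw [ov_cmp] at hqq
          rw [hqq]
          exact hf2 y
  choose m Tr hTr1 hTr2 using key
  obtain ⟨τ, hτ1, hτ2⟩ := restr_gs m Tr hTr1 hγ1 hr h0 h1 hz ρ hM (by
    rw [Fintype.card_fin]
    exact hk)
  choose f hf using fun g => hTr2 g τ (hτ1 g)
  exact ⟨τ, f, hτ2, hf⟩

end Pool.Agent.N587.OX
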