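import Pool.Agent.N587.OX.Cnt

set_option autoImplicit false
set_option linter.unusedSectionVars false

/-!
The switching lemma for words: after a random restriction a shallow tree settles all but a few of
the symbols of a word.
-/

namespace Pool.Agent.N587.OX

open Finset H568R2 Pool.Agent.TH163.AC3 Pool.Agent.N587.OT

open scoped Classical

variable {I : Type} [Fintype I] [DecidableEq I] {m : ℕ}

/-- the free variables read by the tree `i` -/
def fr (Tr : Fin m → DTree I) (τ : Restr I) (y : I → Bool) (i : Fin m) : Finset I :=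
  (Tr i).reads (ov τ y) ∩ st τ

/-- the free variables read by the chosen trees -/
def cf (Tr : Fin m → DTree I) (τ : Restr I) {r : ℕ} (σ : Fin r → Fin m) (y : I → Bool) :
    Finset I := univ.biUnion fun j => fr Tr τ y (σ j)

/-- some choice of `r` symbols settles all but less than `γ m` of the symbols, and reads at most
`k` free variables -/
def Good (Tr : Fin m → DTree I) (γ : ℝ) (k r : ℕ) (τ : Restr I) : Prop :=
  ∃ σ : Fin r → Fin m, (∀ y, (cf Tr τ σ y).card ≤ k) ∧
    ∀ y, ((univ.filter fun i => ¬ fr Tr τ y i ⊆ cf Tr τ σ y).card : ℝ) < γ * m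

theorem agree {τ : Restr I} {A : Finset I} {x y : I → Bool}
    (h : ∀ i ∈ A ∩ st τ, y i = x i) : ∀ i ∈ A, ov τ y i = ov τ x i := by
  intro i hi
  cases hτ : τ i with
  | some b =>
    unfold ov
    rw [hτ]
    rfl
  | none =>
    unfold ov
    rw [hτ]
    exact h i (mem_inter.2 ⟨hi, mem_st.2 hτ⟩)

theorem fr_congr {Tr : Fin m → DTree I} {τ : Restr I} {x y : I → Bool} {i : Fin m}
    (h : ∀ j ∈ fr Tr τ x i, y j = x j) : fr Tr τ y i = fr Tr τ x i := by
  unfold fr
  rw [((Tr i).congr (ov τ x) (ov τ y) (agree h)).2]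

theorem cf_congr {Tr : Fin m → DTree I} {τ : Restr I} {r : ℕ} {σ : Fin r → Fin m}
    {x y : I → Bool} (h : ∀ j ∈ cf Tr τ σ x, y j = x j) : cf Tr τ σ y = cf Tr τ σ x := by
  unfold cf
  apply biUnion_congr rfl
  intro j _
  exact fr_congr fun i hi => h i (mem_biUnion.2 ⟨j, mem_univ j, hi⟩)

theorem settled_congr {Tr : Fin m → DTree I} {τ : Restr I} {r : ℕ} {σ : Fin r → Fin m}
    {x y : I → Bool} (h : ∀ j ∈ cf Tr τ σ x, y j = x j) (i : Fin m) :
    fr Tr τ y i ⊆ cf Tr τ σ y ↔ fr Tr τ x i ⊆ cf Tr τ σ x := by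
  rw [cf_congr h]
  constructor
  · intro h1
    have h2 : fr Tr τ x i = fr Tr τ y i := fr_congr fun j hj => (h j (h1 hj)).symm
    rw [h2]
    exact h1
  · intro h1
    have h2 : fr Tr τ y i = fr Tr τ x i := fr_congr fun j hj => h j (h1 hj)
    rw [h2]
    exact h1

/-- the bound for the choices which read too many variables -/
theorem boundX (Tr : Fin m → DTree I) (τ : Restr I) {r : ℕ} (σ : Fin r → Fin m) (k : ℕ) {z : ℝ}
    (hz : 1 ≤ z) : (if ∃ y, k < (cf Tr τ σ y).card then (1 : ℝ) else 0) *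
      (2 ^ Fintype.card I * z ^ (k + 1)) ≤ ∑ y, (2 * z) ^ (cf Tr τ σ y).card := by
  by_cases hex : ∃ y, k < (cf Tr τ σ y).card
  · rw [if_pos hex, one_mul]
    have h1 := leaf_count (cf Tr τ σ) (fun y => k < (cf Tr τ σ y).card)
      (fun x y h => cf_congr h) (fun x y h hx => by
        show k < (cf Tr τ σ y).card
        rw [cf_congr h]
        exact hx) hex
    have h1' : (2 : ℝ) ^ Fintype.card I ≤
        ∑ y, if k < (cf Tr τ σ y).card then (2 : ℝ) ^ (cf Tr τ σ y).card else 0 := by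
      refine h1.trans (le_of_eq ?_)
      congr!
    calc (2 : ℝ) ^ Fintype.card I * z ^ (k + 1) ≤
          (∑ y, if k < (cf Tr τ σ y).card then (2 : ℝ) ^ (cf Tr τ σ y).card else 0) *
            z ^ (k + 1) := mul_le_mul_of_nonneg_right h1' (by positivity)
      _ = ∑ y, (if k < (cf Tr τ σ y).card then (2 : ℝ) ^ (cf Tr τ σ y).card else 0) *
            z ^ (k + 1) := by rw [sum_mul]
      _ ≤ ∑ y, (2 * z) ^ (cf Tr τ σ y).card := by
          apply sum_le_sum
          intro y _
          by_cases hy : k < (cf Tr τ σ y).card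
          · rw [if_pos hy, mul_pow]
            apply mul_le_mul_of_nonneg_left _ (by positivity)
            exact pow_le_pow_right₀ hz hy
          · rw [if_neg hy, zero_mul]
            positivity
  · rw [if_neg hex, zero_mul]
    apply sum_nonneg
    intro y _
    positivity

/-- the bound for the choices which leave too many symbols open -/
theorem boundY (Tr : Fin m → DTree I) (τ : Restr I) {r k : ℕ} {γ : ℝ} (hγ1 : γ ≤ 1)
    (hr : 4 ^ k * (1 - γ / 2) ^ r ≤ 1 / 2) :
    ∑ σ : Fin r → Fin m, (if ∃ y, (cf Tr τ σ y).card ≤ k ∧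
      γ * m ≤ ((univ.filter fun i => ¬ fr Tr τ y i ⊆ cf Tr τ σ y).card : ℝ) then (1 : ℝ) else 0) ≤
      (m : ℝ) ^ r / 2 := by
  obtain ⟨N2, hN2⟩ : ∃ N2 : ℝ, N2 = 2 ^ Fintype.card I := ⟨_, rfl⟩
  have hN : 0 < N2 := by rw [hN2]; positivity
  have h1 : ∀ σ ∈ (univ : Finset (Fin r → Fin m)), N2 * (if ∃ y, (cf Tr τ σ y).card ≤ k ∧
      γ * m ≤ ((univ.filter fun i => ¬ fr Tr τ y i ⊆ cf Tr τ σ y).card : ℝ) then (1 : ℝ) else 0) ≤
      ∑ y, 4 ^ k * (if γ * m ≤ ((univ.filter fun i => ¬ fr Tr τ y i ⊆ ∅ ∪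
        univ.biUnion fun j => fr Tr τ y (σ j)).card : ℝ) then ((1 : ℝ) / 2) ^ (∅ ∪
          univ.biUnion fun j => fr Tr τ y (σ j)).card else 0) := by
    intro σ _
    by_cases hex : ∃ y, (cf Tr τ σ y).card ≤ k ∧
      γ * m ≤ ((univ.filter fun i => ¬ fr Tr τ y i ⊆ cf Tr τ σ y).card : ℝ)
    · rw [if_pos hex, mul_one]
      have h2 := leaf_count (cf Tr τ σ) (fun y => (cf Tr τ σ y).card ≤ k ∧
        γ * m ≤ ((univ.filter fun i => ¬ fr Tr τ y i ⊆ cf Tr τ σ y).card : ℝ))
        (fun x y h => cf_congr h) (fun x y h hx => by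
          have e1 : (univ.filter fun i => ¬ fr Tr τ y i ⊆ cf Tr τ σ y) =
              univ.filter fun i => ¬ fr Tr τ x i ⊆ cf Tr τ σ x := by
            apply filter_congr
            intro i _
            rw [settled_congr h]
          show (cf Tr τ σ y).card ≤ k ∧
            γ * m ≤ ((univ.filter fun i => ¬ fr Tr τ y i ⊆ cf Tr τ σ y).card : ℝ)
          rw [e1, cf_congr h]
          exact hx) hex
      rw [← hN2] at h2
      refine h2.trans (sum_le_sum fun y _ => ?_)
      rw [empty_union]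
      change _ ≤ 4 ^ k * (if γ * m ≤ ((univ.filter fun i => ¬ fr Tr τ y i ⊆
        cf Tr τ σ y).card : ℝ) then ((1 : ℝ) / 2) ^ (cf Tr τ σ y).card else 0)
      by_cases hy : (cf Tr τ σ y).card ≤ k ∧
        γ * m ≤ ((univ.filter fun i => ¬ fr Tr τ y i ⊆ cf Tr τ σ y).card : ℝ)
      · rw [if_pos hy, if_pos hy.2]
        have e2 : (2 : ℝ) ^ (cf Tr τ σ y).card =
            4 ^ (cf Tr τ σ y).card * (1 / 2) ^ (cf Tr τ σ y).card := by
          rw [← mul_pow]
          norm_num
        rw [e2]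
        apply mul_le_mul_of_nonneg_right _ (by positivity)
        exact pow_le_pow_right₀ (by norm_num) hy.1
      · rw [if_neg hy]
        split_ifs
        · positivity
        · simp
    · rw [if_neg hex, mul_zero]
      apply sum_nonneg
      intro y _
      split_ifs
      · positivity
      · simp
  have h3 := sum_le_sum h1
  rw [← mul_sum, sum_comm] at h3
  have h4 : ∀ y ∈ (univ : Finset (I → Bool)), ∑ σ : Fin r → Fin m, 4 ^ k *
      (if γ * m ≤ ((univ.filter fun i => ¬ fr Tr τ y i ⊆ ∅ ∪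
        univ.biUnion fun j => fr Tr τ y (σ j)).card : ℝ) then ((1 : ℝ) / 2) ^ (∅ ∪
          univ.biUnion fun j => fr Tr τ y (σ j)).card else 0) ≤ (m : ℝ) ^ r / 2 := by
    intro y _
    rw [← mul_sum]
    have h5 := chosen m (fr Tr τ y) hγ1 r ∅
    rw [card_empty, pow_zero, one_mul, mul_pow] at h5
    calc _ ≤ 4 ^ k * ((m : ℝ) ^ r * (1 - γ / 2) ^ r) :=
          mul_le_mul_of_nonneg_left h5 (by positivity)
      _ = (m : ℝ) ^ r * (4 ^ k * (1 - γ / 2) ^ r) := by ring
      _ ≤ (m : ℝ) ^ r * (1 / 2) := mul_le_mul_of_nonneg_left hr (by positivity)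
      _ = _ := by ring
  have h6 := h3.trans (sum_le_card_nsmul _ _ _ h4)
  rw [card_univ, Fintype.card_fun, Fintype.card_bool, nsmul_eq_mul] at h6
  push_cast at h6
  rw [← hN2] at h6
  exact le_of_mul_le_mul_left h6 hN

/-- **the switching lemma for words** -/
theorem gs (hm : 0 < m) (Tr : Fin m → DTree I) {D : ℕ}
    (hD : ∀ i x, ((Tr i).reads x).card ≤ D) {γ : ℝ} (hγ1 : γ ≤ 1) {k r : ℕ}
    (hr : 4 ^ k * (1 - γ / 2) ^ r ≤ 1 / 2) {q z : ℝ} (h0 : 0 ≤ q) (h1 : q ≤ 1) (hz : 1 ≤ z) :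
    Ex (wq q) (fun τ : Restr I => if ¬ Good Tr γ k r τ then (1 : ℝ) else 0) ≤
      2 * (1 - q + 2 * z * q) ^ (r * D) / z ^ (k + 1) := by
  obtain ⟨N2, hN2⟩ : ∃ N2 : ℝ, N2 = 2 ^ Fintype.card I := ⟨_, rfl⟩
  have hN : 0 < N2 := by rw [hN2]; positivity
  have hm0 : (0 : ℝ) < m := by exact_mod_cast hm
  have hw : ∀ τ : Restr I, 0 ≤ ∏ i, wq q (τ i) :=
    fun τ => prod_nonneg fun i _ => wq_nonneg h0 h1 _
  -- pointwise
  have hpt : ∀ τ : Restr I, (if ¬ Good Tr γ k r τ then (1 : ℝ) else 0) * ((m : ℝ) ^ r / 2) ≤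
      ∑ σ : Fin r → Fin m, if ∃ y, k < (cf Tr τ σ y).card then (1 : ℝ) else 0 := by
    intro τ
    by_cases hG : Good Tr γ k r τ
    · rw [if_neg (not_not.2 hG), zero_mul]
      apply sum_nonneg
      intro σ _
      split_ifs <;> norm_num
    · rw [if_pos hG, one_mul]
      have hY := boundY Tr τ hγ1 hr
      have h2 : ∀ σ ∈ (univ : Finset (Fin r → Fin m)), (1 : ℝ) ≤
          (if ∃ y, k < (cf Tr τ σ y).card then (1 : ℝ) else 0) +
          (if ∃ y, (cf Tr τ σ y).card ≤ k ∧
            γ * m ≤ ((univ.filter fun i => ¬ fr Tr τ y i ⊆ cf Tr τ σ y).card : ℝ)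
            then (1 : ℝ) else 0) := by
        intro σ _
        by_cases hX : ∃ y, k < (cf Tr τ σ y).card
        · rw [if_pos hX]
          split_ifs <;> norm_num
        · rw [if_neg hX, zero_add]
          push Not at hX
          rw [if_pos]
          by_contra hcon
          push Not at hcon
          exact hG ⟨σ, hX, fun y => hcon y (hX y)⟩
      have h3 := sum_le_sum h2
      rw [sum_const, card_univ, Fintype.card_fun, Fintype.card_fin, Fintype.card_fin,
        nsmul_eq_mul, mul_one, sum_add_distrib] at h3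
      push_cast at h3
      linarith
  -- the expectation
  have hE : Ex (wq q) (fun τ : Restr I => if ¬ Good Tr γ k r τ then (1 : ℝ) else 0) *
      ((m : ℝ) ^ r / 2) * (N2 * z ^ (k + 1)) ≤ (m : ℝ) ^ r * (N2 *
        (1 - q + 2 * z * q) ^ (r * D)) := by
    unfold Ex
    rw [sum_mul, sum_mul]
    have h2 : ∀ τ ∈ (univ : Finset (Restr I)), (∏ i, wq q (τ i)) *
        (if ¬ Good Tr γ k r τ then (1 : ℝ) else 0) * ((m : ℝ) ^ r / 2) * (N2 * z ^ (k + 1)) ≤
        ∑ σ : Fin r → Fin m, (∏ i, wq q (τ i)) * ∑ y, (2 * z) ^ (cf Tr τ σ y).card := by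
      intro τ _
      rw [← mul_sum]
      rw [mul_assoc (∏ i, wq q (τ i)), mul_assoc (∏ i, wq q (τ i))]
      apply mul_le_mul_of_nonneg_left _ (hw τ)
      calc (if ¬ Good Tr γ k r τ then (1 : ℝ) else 0) * ((m : ℝ) ^ r / 2) * (N2 * z ^ (k + 1))
          ≤ (∑ σ : Fin r → Fin m, if ∃ y, k < (cf Tr τ σ y).card then (1 : ℝ) else 0) *
            (N2 * z ^ (k + 1)) := mul_le_mul_of_nonneg_right (hpt τ) (by positivity)
        _ = ∑ σ : Fin r → Fin m, (if ∃ y, k < (cf Tr τ σ y).card then (1 : ℝ) else 0) *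
            (N2 * z ^ (k + 1)) := by rw [sum_mul]
        _ ≤ _ := by
            apply sum_le_sum
            intro σ _
            rw [hN2]
            exact boundX Tr τ σ k hz
    refine (sum_le_sum h2).trans ?_
    rw [sum_comm]
    have h3 : ∀ σ ∈ (univ : Finset (Fin r → Fin m)), ∑ τ : Restr I, (∏ i, wq q (τ i)) *
        ∑ y, (2 * z) ^ (cf Tr τ σ y).card ≤ N2 * (1 - q + 2 * z * q) ^ (r * D) := by
      intro σ _
      have h4 := exchange (fun x => univ.biUnion fun j => (Tr (σ j)).reads x) q (2 * z)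
      have h5 : ∀ (τ : Restr I) (y : I → Bool), cf Tr τ σ y =
          (univ.biUnion fun j => (Tr (σ j)).reads (ov τ y)) ∩ st τ := by
        intro τ y
        unfold cf fr
        rw [biUnion_inter]
      simp only [h5]
      rw [h4]
      have hb1 : (1 : ℝ) ≤ 1 - q + 2 * z * q := by nlinarith
      have h6 : ∀ x ∈ (univ : Finset (I → Bool)), (1 - q + 2 * z * q) ^
          (univ.biUnion fun j => (Tr (σ j)).reads x).card ≤ (1 - q + 2 * z * q) ^ (r * D) := by
        intro x _
        apply pow_le_pow_right₀ hb1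
        refine card_biUnion_le.trans ((sum_le_card_nsmul _ _ _ fun j _ => hD (σ j) x).trans ?_)
        rw [card_univ, Fintype.card_fin, smul_eq_mul]
      refine (sum_le_card_nsmul _ _ _ h6).trans (le_of_eq ?_)
      rw [card_univ, Fintype.card_fun, Fintype.card_bool, nsmul_eq_mul, hN2]
      push_cast
      rfl
    refine (sum_le_card_nsmul _ _ _ h3).trans (le_of_eq ?_)
    rw [card_univ, Fintype.card_fun, Fintype.card_fin, Fintype.card_fin, nsmul_eq_mul]
    push_cast
    rfl
  rw [le_div_iff₀ (by positivity)]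
  have hmr : (0 : ℝ) < (m : ℝ) ^ r := by positivity
  have hc : 0 < (m : ℝ) ^ r * N2 / 2 := by positivity
  have h9 : (m : ℝ) ^ r * N2 / 2 * (Ex (wq q) (fun τ : Restr I =>
      if ¬ Good Tr γ k r τ then (1 : ℝ) else 0) * z ^ (k + 1)) ≤
      (m : ℝ) ^ r * N2 / 2 * (2 * (1 - q + 2 * z * q) ^ (r * D)) := by
    calc _ = Ex (wq q) (fun τ : Restr I => if ¬ Good Tr γ k r τ then (1 : ℝ) else 0) *
          ((m : ℝ) ^ r / 2) * (N2 * z ^ (k + 1)) := by ring
      _ ≤ _ := hE
      _ = _ := by ring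
  exact le_of_mul_le_mul_left h9 hc

/-- the answers: for a word which is settled up to less than `γ m` symbols by a shallow tree there
are answers of small depth which are right for a promise problem with gap `γ` -/
theorem answer {l : ℕ} (Tr : Fin m → DTree I) {γ : ℝ} {k r : ℕ} {τ : Restr I}
    (hG : Good Tr γ k r τ) (a : (I → Bool) → Fin m → Fin l → Bool)
    (ha : ∀ i x y, (∀ j ∈ (Tr i).reads x, y j = x j) → a y i = a x i)
    {Y Z : (m : ℕ) → (Fin m → Fin l → Bool) → Prop}
    (hgap : ∀ b c, Y m b → Z m c → γ * m ≤ ((univ.filter fun i => b i ≠ c i).card : ℝ)) :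
    ∃ f : (I → Bool) → Bool, HasDT k f ∧ ∀ y, (Y m (a (ov τ y)) → f y = true) ∧
      (Z m (a (ov τ y)) → f y = false) := by
  obtain ⟨σ, hσ1, hσ2⟩ := hG
  obtain ⟨T, hT⟩ : ∃ T : DTree I, T = big (List.ofFn fun j => Tr (σ j)) := ⟨_, rfl⟩
  have hTr : ∀ x, T.reads x = univ.biUnion fun j => (Tr (σ j)).reads x := by
    intro x
    rw [hT]
    exact reads_big_ofFn _ x
  have hcf : ∀ y, T.reads (ov τ y) ∩ st τ = cf Tr τ σ y := by
    intro y
    rw [hTr]
    unfold cf fr
    rw [biUnion_inter]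
  obtain ⟨f, hf⟩ : ∃ f : (I → Bool) → Bool, f = fun x => decide (∃ y,
    (∀ i ∈ T.reads x, ov τ y i = x i) ∧ Y m (a (ov τ y))) := ⟨_, rfl⟩
  refine ⟨rs f τ, dt_collapse T τ k f ?_ ?_, ?_⟩
  · intro x
    rw [hcf]
    exact hσ1 x
  · intro x y hxy
    have h1 : T.reads (ov τ y) = T.reads (ov τ x) := (T.congr _ _ hxy).2
    rw [hf]
    simp only [decide_eq_decide]
    apply exists_congr
    intro w
    rw [h1]
    constructor
    · rintro ⟨h2, h3⟩
      exact ⟨fun i hi => (h2 i hi).trans (hxy i hi), h3⟩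
    · rintro ⟨h2, h3⟩
      exact ⟨fun i hi => (h2 i hi).trans (hxy i hi).symm, h3⟩
  · intro y
    constructor
    · intro hY
      show f (ov τ y) = true
      rw [hf]
      simp only [decide_eq_true_eq]
      exact ⟨y, fun _ _ => rfl, hY⟩
    · intro hZ
      show f (ov τ y) = false
      rw [hf]
      simp only [decide_eq_false_iff_not]
      rintro ⟨w, hw, hY⟩
      have h1 := hgap _ _ hY hZ
      have h2 := hσ2 y
      have h3 : (univ.filter fun i => a (ov τ w) i ≠ a (ov τ y) i) ⊆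
          univ.filter fun i => ¬ fr Tr τ y i ⊆ cf Tr τ σ y := by
        intro i hi
        rw [mem_filter] at hi ⊢
        refine ⟨mem_univ _, fun hs => hi.2 ?_⟩
        apply ha
        apply agree
        intro j hj
        have hj1 : j ∈ cf Tr τ σ y := hs hj
        rw [← hcf, mem_inter] at hj1
        have h4 := hw j hj1.1
        have hj2 : τ j = none := mem_st.1 hj1.2
        unfold ov at h4
        rw [hj2] at h4
        exact h4
      have h5 : ((univ.filter fun i => a (ov τ w) i ≠ a (ov τ y) i).card : ℝ) ≤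
          ((univ.filter fun i => ¬ fr Tr τ y i ⊆ cf Tr τ σ y).card : ℝ) := by
        exact_mod_cast card_le_card h3
      linarith

end Pool.Agent.N587.OX
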