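import Pool.Agent.N587.OX.Dt

set_option autoImplicit false
set_option linter.unusedSectionVars false

/-!
The step of the induction on the levels.
-/

namespace Pool.Agent.N587.OX

open Finset H568R2 Pool.Agent.TH163.AC3 Pool.Agent.N587.OT

open scoped Classical

variable {n s l d : ℕ} {C : OCircuit n s l d}
  {Y Z : (m : ℕ) → (Fin m → Fin l → Bool) → Prop}

theorem num_r {u : ℕ} {γ : ℝ} (hγ0 : 0 < γ) {r : ℕ} (hr : 4 * ((u : ℝ) + 1) / γ ≤ r)
    (hγ1 : γ ≤ 1) : 4 ^ u * (1 - γ / 2) ^ r ≤ 1 / 2 := by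
  have h1 : 1 - γ / 2 ≤ Real.exp (-(γ / 2)) := by
    have := Real.add_one_le_exp (-(γ / 2))
    linarith
  have h2 : (1 - γ / 2) ^ r ≤ Real.exp (-(2 * ((u : ℝ) + 1))) := by
    calc (1 - γ / 2) ^ r ≤ Real.exp (-(γ / 2)) ^ r := pow_le_pow_left₀ (by linarith) h1 r
      _ = Real.exp (r * (-(γ / 2))) := by rw [← Real.exp_nat_mul]
      _ ≤ Real.exp (-(2 * ((u : ℝ) + 1))) := by
          apply Real.exp_le_exp.2
          rw [div_le_iff₀ hγ0] at hr
          nlinarith
  have h3 : Real.exp (-(2 * ((u : ℝ) + 1))) ≤ (1 / 4) ^ (u + 1) := by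
    have h4 : Real.exp (-2) ≤ 1 / 4 := by
      have h5 : (2 : ℝ) ≤ Real.exp 1 := by
        have := Real.add_one_le_exp (1 : ℝ)
        linarith
      have h6 : (4 : ℝ) ≤ Real.exp 2 := by
        rw [show (2 : ℝ) = 1 + 1 by norm_num, Real.exp_add]
        nlinarith
      rw [Real.exp_neg, inv_eq_one_div]
      exact one_div_le_one_div_of_le (by norm_num) h6
    calc Real.exp (-(2 * ((u : ℝ) + 1))) = Real.exp (((u + 1 : ℕ) : ℝ) * (-2)) := by
          congr 1
          push_cast
          ring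
      _ = Real.exp (-2) ^ (u + 1) := by rw [Real.exp_nat_mul]
      _ ≤ _ := pow_le_pow_left₀ (Real.exp_pos _).le h4 _
  calc 4 ^ u * (1 - γ / 2) ^ r ≤ 4 ^ u * (1 / 4) ^ (u + 1) :=
        mul_le_mul_of_nonneg_left (h2.trans h3) (by positivity)
    _ = 1 / 4 := by
        rw [pow_succ, ← mul_assoc, ← mul_pow]
        norm_num
    _ ≤ 1 / 2 := by norm_num

theorem num_q {u l : ℕ} (hu : 1 ≤ u) (hl1 : 1 ≤ l) {γ : ℝ} (hγ0 : 0 < γ) (hγ1 : γ ≤ 1) {r : ℕ}
    (hr : (r : ℝ) ≤ 9 * u / γ) {q : ℝ} (hq : q = γ / (746496 * (l * u))) :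
    (1 - q + 2 * 6912 * q) ^ (r * (l * (3 * u))) ≤ 2 ^ u := by
  have hu0 : (1 : ℝ) ≤ u := by exact_mod_cast hu
  have hl0 : (1 : ℝ) ≤ l := by exact_mod_cast hl1
  have hq0 : 0 < q := by rw [hq]; positivity
  have h1 : 1 - q + 2 * 6912 * q ≤ Real.exp (13824 * q) := by
    have := Real.add_one_le_exp (13824 * q)
    linarith
  have h2 : (1 - q + 2 * 6912 * q) ^ (r * (l * (3 * u))) ≤
      Real.exp ((r * (l * (3 * u)) : ℕ) * (13824 * q)) := by
    rw [Real.exp_nat_mul]
    exact pow_le_pow_left₀ (by linarith) h1 _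
  have h3 : ((r * (l * (3 * u)) : ℕ) : ℝ) * (13824 * q) ≤ u * (1 / 2) := by
    push_cast
    calc (r : ℝ) * (l * (3 * u)) * (13824 * q) ≤ 9 * u / γ * (l * (3 * u)) * (13824 * q) := by
          apply mul_le_mul_of_nonneg_right _ (by positivity)
          exact mul_le_mul_of_nonneg_right hr (by positivity)
      _ = u * (1 / 2) := by
          rw [hq]
          field_simp
          ring
  have h4 : Real.exp (1 / 2) ≤ 2 := by
    have h5 : Real.exp (1 / 2) ^ 2 ≤ 4 := by
      rw [← Real.exp_nat_mul]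
      have := Real.exp_one_lt_d9
      norm_num
      linarith
    nlinarith [Real.exp_pos (1 / 2)]
  calc _ ≤ Real.exp ((r * (l * (3 * u)) : ℕ) * (13824 * q)) := h2
    _ ≤ Real.exp (u * (1 / 2)) := Real.exp_le_exp.2 h3
    _ = Real.exp (1 / 2) ^ u := by rw [Real.exp_nat_mul]
    _ ≤ 2 ^ u := pow_le_pow_left₀ (Real.exp_pos _).le h4 _

theorem le_two_pow (u : ℕ) : (u : ℝ) ≤ 2 ^ u := by
  have : u ≤ 2 ^ u := Nat.lt_two_pow_self.le
  exact_mod_cast this

theorem num1 {u : ℕ} (hu : 1 ≤ u) {S : ℝ} (hS : S ≤ 2 * 4 ^ u) :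
    S * (1 / 2304) ^ (u + 1) ≤ 1 / (165888 * u) / 2 := by
  have hu0 : (1 : ℝ) ≤ u := by exact_mod_cast hu
  have h1 : (u : ℝ) ≤ 2 ^ u := le_two_pow u
  rw [div_div, le_div_iff₀ (by positivity)]
  have h2 : ((1 : ℝ) / 2304) ^ u * 8 ^ u ≤ 1 / 288 := by
    rw [← mul_pow]
    norm_num
    calc ((1 : ℝ) / 288) ^ u ≤ (1 / 288) ^ 1 :=
          pow_le_pow_of_le_one (by norm_num) (by norm_num) hu
      _ = 1 / 288 := pow_one _
  calc S * (1 / 2304) ^ (u + 1) * (165888 * u * 2)
      ≤ 2 * 4 ^ u * (1 / 2304) ^ (u + 1) * (165888 * 2 ^ u * 2) := by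
        apply mul_le_mul _ _ (by positivity) (by positivity)
        · exact mul_le_mul_of_nonneg_right hS (by positivity)
        · linarith
    _ = 288 * ((1 / 2304) ^ u * (4 * 2) ^ u) := by
        rw [pow_succ, mul_pow]
        ring
    _ ≤ 288 * (1 / 288) := by
        apply mul_le_mul_of_nonneg_left _ (by norm_num)
        norm_num at h2 ⊢
        exact h2
    _ = 1 := by norm_num

theorem num3 {u : ℕ} (hu : 1 ≤ u) {S : ℝ} (hS : S ≤ 3 * 2 ^ u) :
    S * (1 / 1152) ^ (u + 1) ≤ 1 / (55296 * u) / 2 := by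
  have hu0 : (1 : ℝ) ≤ u := by exact_mod_cast hu
  have h1 : (u : ℝ) ≤ 2 ^ u := le_two_pow u
  rw [div_div, le_div_iff₀ (by positivity)]
  have h2 : ((1 : ℝ) / 1152) ^ u * 4 ^ u ≤ 1 / 288 := by
    rw [← mul_pow]
    norm_num
    calc ((1 : ℝ) / 288) ^ u ≤ (1 / 288) ^ 1 :=
          pow_le_pow_of_le_one (by norm_num) (by norm_num) hu
      _ = 1 / 288 := pow_one _
  calc S * (1 / 1152) ^ (u + 1) * (55296 * u * 2)
      ≤ 3 * 2 ^ u * (1 / 1152) ^ (u + 1) * (55296 * 2 ^ u * 2) := by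
        apply mul_le_mul _ _ (by positivity) (by positivity)
        · exact mul_le_mul_of_nonneg_right hS (by positivity)
        · linarith
    _ = 288 * ((1 / 1152) ^ u * (2 * 2) ^ u) := by
        rw [pow_succ, mul_pow]
        ring
    _ ≤ 288 * (1 / 288) := by
        apply mul_le_mul_of_nonneg_left _ (by norm_num)
        norm_num at h2 ⊢
        exact h2
    _ = 1 := by norm_num

theorem num2 {u l : ℕ} (hu : 1 ≤ u) (hl1 : 1 ≤ l) {γ : ℝ} (hγ0 : 0 < γ)
    (hl : (l : ℝ) ≤ γ * 2 ^ u) {S E : ℝ} (hS : S ≤ 2 ^ u) (hE0 : 0 ≤ E) (hE : E ≤ 2 ^ u) :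
    S * (2 * E / 6912 ^ (u + 1)) ≤ γ / (746496 * (l * u)) / 2 := by
  have hu0 : (1 : ℝ) ≤ u := by exact_mod_cast hu
  have hl0 : (1 : ℝ) ≤ l := by exact_mod_cast hl1
  have h1 : (u : ℝ) ≤ 2 ^ u := le_two_pow u
  rw [div_div, ← mul_div_assoc, div_le_div_iff₀ (by positivity) (by positivity)]
  have h2 : (432 : ℝ) * 16 ^ u ≤ 6912 ^ u := by
    have h3 : (6912 : ℝ) ^ u = 432 ^ u * 16 ^ u := by
      rw [← mul_pow]
      norm_num
    rw [h3]
    apply mul_le_mul_of_nonneg_right _ (by positivity)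
    calc (432 : ℝ) = 432 ^ 1 := by norm_num
      _ ≤ 432 ^ u := pow_le_pow_right₀ (by norm_num) hu
  calc S * (2 * E) * (746496 * (l * u) * 2)
      ≤ 2 ^ u * (2 * 2 ^ u) * (746496 * (γ * 2 ^ u * 2 ^ u) * 2) := by
        apply mul_le_mul _ _ (by positivity) (by positivity)
        · apply mul_le_mul hS _ (by positivity) (by positivity)
          linarith
        · have h4 : (l : ℝ) * u ≤ γ * 2 ^ u * 2 ^ u := mul_le_mul hl h1 (by positivity)
            (by positivity)
          linarith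
    _ = γ * (6912 * (432 * (2 * 2 * 2 * 2) ^ u)) := by
        rw [mul_pow, mul_pow, mul_pow]
        ring
    _ ≤ γ * 6912 ^ (u + 1) := by
        apply mul_le_mul_of_nonneg_left _ hγ0.le
        rw [pow_succ, mul_comm ((6912 : ℝ) ^ u)]
        apply mul_le_mul_of_nonneg_left _ (by norm_num)
        norm_num at h2 ⊢
        exact h2

/-- **the step** -/
theorem step {t u : ℕ} (hu : 1 ≤ u) (ht : t < d) (hs : s ≤ 2 ^ u) (hl1 : 1 ≤ l) {γ : ℝ}
    (hγ0 : 0 < γ) (hγ1 : γ ≤ 1) (hl : (l : ℝ) ≤ γ * 2 ^ u)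
    {ρ : Restr (Fin n)} (hst : 0 < (st ρ).card)
    {F : Fin s → (Fin n → Bool) → Bool} (hF : ∀ g, C.level g < t → HasDT (3 * u) (F g))
    (hsem : Sem C Y Z t ρ F)
    (hgap : ∀ m b c, Y m b → Z m c → γ * m ≤ ((univ.filter fun i => b i ≠ c i).card : ℝ))
    (hpos : ∀ m b, Y m b → 0 < m) :
    ∃ (ρ' : Restr (Fin n)) (F' : Fin s → (Fin n → Bool) → Bool),
      ((st ρ).card : ℝ) * γ ≤ 2 ^ 60 * (l * u ^ 3) * (st ρ').card ∧
      (∀ g, C.level g < t + 1 → HasDT (3 * u) (F' g)) ∧ Sem C Y Z (t + 1) ρ' F' := by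
  have hu0 : (1 : ℝ) ≤ u := by exact_mod_cast hu
  have hl0 : (1 : ℝ) ≤ l := by exact_mod_cast hl1
  have hsr : (s : ℝ) ≤ 2 ^ u := by exact_mod_cast hs
  have hstr : (0 : ℝ) < (st ρ).card := by exact_mod_cast hst
  -- the first restriction
  obtain ⟨q1, hq1⟩ : ∃ q1 : ℝ, q1 = 1 / (165888 * u) := ⟨_, rfl⟩
  have hq10 : 0 < q1 := by rw [hq1]; positivity
  obtain ⟨τ1, hτ1, hst1⟩ := restr_dt (ι := Fin s ⊕ Fin s × Fin s)
    (fun j => match j with
      | Sum.inl g => if C.level g ≤ t then (fun y => ordv (C.gate g) (ov ρ y) fun h => F h y)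
          else fun _ => false
      | Sum.inr (g, g') => if C.level g ≤ t ∧ C.level g' ≤ t then ef C ρ F g g'
          else fun _ => false) (c := 6 * u) (by
      rintro (g | ⟨g, g'⟩)
      · by_cases hg : C.level g ≤ t
        · obtain ⟨b, hb⟩ := ord_cert (by omega) hF hg
          refine ⟨b, cert_mono ?_ (show 3 * u ≤ 6 * u by omega)⟩
          simp only [hg, if_true]
          exact hb
        · refine ⟨true, ?_⟩
          simp only [hg, if_false]
          exact fun x hx => absurd hx (by simp)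
      · by_cases hg : C.level g ≤ t ∧ C.level g' ≤ t
        · refine ⟨false, ?_⟩
          simp only [hg, and_self, if_true]
          exact cert_mono (ef_cert (by omega) hF hg.1 hg.2) (by omega)
        · refine ⟨true, ?_⟩
          simp only [hg, if_false]
          exact fun x hx => absurd hx (by simp)) ρ (q := q1) hq10 (by
      rw [hq1, div_le_div_iff₀ (by positivity) (by norm_num)]
      linarith) hst (k := u) (by
      have e1 : (Fintype.card (Fin s ⊕ Fin s × Fin s) : ℝ) ≤ 2 * 4 ^ u := by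
        rw [Fintype.card_sum, Fintype.card_prod, Fintype.card_fin]
        push_cast
        have h2 : (4 : ℝ) ^ u = 2 ^ u * 2 ^ u := by
          rw [← mul_pow]
          norm_num
        have h3 : (0 : ℝ) ≤ s := Nat.cast_nonneg _
        have h4 : (s : ℝ) * s ≤ 2 ^ u * 2 ^ u := mul_le_mul hsr hsr h3 (by positivity)
        have h5 : (1 : ℝ) ≤ 2 ^ u := one_le_pow₀ (by norm_num)
        rw [h2]
        nlinarith
      have e2 : 12 * ((6 * u : ℕ) : ℝ) * q1 = 1 / 2304 := by
        rw [hq1]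
        push_cast
        field_simp
        norm_num
      rw [e2, hq1]
      exact num1 hu e1)
  have hord1 : ∀ g, C.level g ≤ t →
      HasDT u (rs (fun y => ordv (C.gate g) (ov ρ y) fun h => F h y) τ1) := by
    intro g hg
    have := hτ1 (Sum.inl g)
    simp only [hg, if_true] at this
    exact this
  have hef1 : ∀ g g', C.level g ≤ t → C.level g' ≤ t →
      HasDT u (rs (ef C ρ F g g') τ1) := by
    intro g g' hg hg'
    have := hτ1 (Sum.inr (g, g'))
    simp only [hg, hg', and_self, if_true] at this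
    exact this
  have hst1' : (0 : ℝ) < (st (cmp ρ τ1)).card := lt_of_lt_of_le (by positivity) hst1
  -- the second restriction
  have hF1 : ∀ g, C.level g < t → HasDT (3 * u) (rs (F g) τ1) := fun g hg => hasDT_rs (hF g hg) τ1
  have hsem1 := hsem.restrict τ1
  obtain ⟨r, hr⟩ : ∃ r : ℕ, r = ⌈4 * ((u : ℝ) + 1) / γ⌉₊ := ⟨_, rfl⟩
  have hr1 : 4 * ((u : ℝ) + 1) / γ ≤ r := by rw [hr]; exact Nat.le_ceil _
  have hr2 : (r : ℝ) ≤ 9 * u / γ := by
    have h1 : (r : ℝ) < 4 * ((u : ℝ) + 1) / γ + 1 := by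
      rw [hr]
      exact Nat.ceil_lt_add_one (by positivity)
    have h2 : 4 * ((u : ℝ) + 1) / γ + 1 ≤ 9 * u / γ := by
      rw [div_add_one hγ0.ne', div_le_div_iff_of_pos_right hγ0]
      linarith
    linarith
  obtain ⟨q2, hq2⟩ : ∃ q2 : ℝ, q2 = γ / (746496 * (l * u)) := ⟨_, rfl⟩
  have hq20 : 0 < q2 := by rw [hq2]; positivity
  have hlu : (1 : ℝ) ≤ l * u := one_le_mul_of_one_le_of_one_le hl0 hu0
  have hq23 : q2 ≤ 1 / 3 := by
    rw [hq2, div_le_div_iff₀ (by positivity) (by norm_num)]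
    linarith
  obtain ⟨τ2, f, hcard2, hf⟩ := raw_all (k := u) (r := r) (q := q2) (z := 6912) (by omega) hF1
    hγ1 hgap hpos (num_r hγ0 hr1 hγ1) hq20 hq23 (by norm_num) (by exact_mod_cast hst1') (by
      rw [hq2]
      refine num2 hu hl1 hγ0 hl hsr ?_ ?_
      · rw [← hq2]
        apply pow_nonneg
        linarith
      · exact num_q hu hl1 hγ0 hγ1 hr2 rfl)
  obtain ⟨ρ2, hρ2⟩ : ∃ ρ2, ρ2 = cmp (cmp ρ τ1) τ2 := ⟨_, rfl⟩
  obtain ⟨F2, hF2⟩ : ∃ F2 : Fin s → (Fin n → Bool) → Bool, F2 = fun g => rs (rs (F g) τ1) τ2 :=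
    ⟨_, rfl⟩
  rw [← hρ2] at hcard2
  have hst2 : (0 : ℝ) < (st ρ2).card := lt_of_lt_of_le (by positivity) hcard2
  have hsem2 : Sem C Y Z t ρ2 F2 := by
    rw [hρ2, hF2]
    exact hsem1.restrict τ2
  have hF2j : ∀ g, C.level g < t → HasDT (3 * u) (F2 g) := by
    intro g hg
    rw [hF2]
    exact hasDT_rs (hF1 g hg) τ2
  have hord2 : ∀ g, C.level g ≤ t →
      HasDT u fun y => ordv (C.gate g) (ov ρ2 y) fun h => F2 h y := by
    intro g hg
    have h1 := hasDT_rs (hord1 g hg) τ2
    have h2 : (fun y => ordv (C.gate g) (ov ρ2 y) fun h => F2 h y) =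
        rs (rs (fun y => ordv (C.gate g) (ov ρ y) fun h => F h y) τ1) τ2 := by
      funext y
      rw [hρ2, hF2, ov_cmp, ov_cmp]
      rfl
    rw [h2]
    exact h1
  have hef2 : ∀ g g', C.level g ≤ t → C.level g' ≤ t → HasDT u (ef C ρ2 F2 g g') := by
    intro g g' hg hg'
    have h1 := hasDT_rs (hef1 g g' hg hg') τ2
    have h2 : ef C ρ2 F2 g g' = rs (rs (ef C ρ F g g') τ1) τ2 := by
      funext y
      unfold ef
      rw [hρ2, hF2, ov_cmp, ov_cmp]
      rfl
    rw [h2]
    exact h1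
  have hsem3 : Sem C Y Z (t + 1) ρ2 (nw C t ρ2 F2 f) := by
    apply sem_step hsem2
    intro g hg y q hq
    rw [hρ2, hF2] at hq
    exact (hf g hg).2 y q hq
  -- the third restriction
  obtain ⟨q3, hq3⟩ : ∃ q3 : ℝ, q3 = 1 / (55296 * u) := ⟨_, rfl⟩
  have hq30 : 0 < q3 := by rw [hq3]; positivity
  obtain ⟨τ3, hτ3, hst3⟩ := restr_dt (ι := Fin s × Fin 3)
    (fun p => if C.level p.1 = t then
      (if p.2 = 0 then A1 C t ρ2 F2 p.1 else if p.2 = 1 then A2 C t ρ2 F2 p.1
        else A3 C t ρ2 F2 f p.1) else fun _ => false) (c := 4 * u) (by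
      rintro ⟨g, i⟩
      by_cases hg : C.level g = t
      swap
      · refine ⟨true, ?_⟩
        simp only [hg, if_false]
        exact fun x hx => absurd hx (by simp)
      simp only [hg, if_true]
      by_cases hi0 : i = 0
      · refine ⟨true, ?_⟩
        simp only [hi0, if_true]
        refine cert_exists (fun g' => C.level g' < t) (fun g' y => ef C ρ2 F2 g g' y && F2 g' y)
          ?_ ?_
        · intro g' hg'
          exact (hasDT_op (fun a b => a && b) (hef2 g g' (by omega) (by omega))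
            (hF2j g' hg')).mono (by omega)
        · intro y
          unfold A1
          rw [decide_eq_true_eq]
      · by_cases hi1 : i = 1
        · refine ⟨false, ?_⟩
          simp only [hi1, one_ne_zero, if_false, if_true]
          refine cert_forall (fun g' => C.level g' < t) (fun g' y => !(ef C ρ2 F2 g g' y)) ?_ ?_
          · intro g' hg'
            exact ((hef2 g g' (by omega) (by omega)).not).mono (by omega)
          · intro y
            unfold A2
            rw [decide_eq_true_eq]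
        · refine ⟨true, ?_⟩
          simp only [hi0, hi1, if_false]
          refine cert_exists (fun g' => C.level g' = t) (fun g' y => ef C ρ2 F2 g g' y && f g' y)
            ?_ ?_
          · intro g' hg'
            exact (hasDT_op (fun a b => a && b) (hef2 g g' (by omega) (by omega))
              (hf g' hg').1).mono (by omega)
          · intro y
            unfold A3
            rw [decide_eq_true_eq]) ρ2 (q := q3) hq30 (by
      rw [hq3, div_le_div_iff₀ (by positivity) (by norm_num)]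
      linarith) (by exact_mod_cast hst2) (k := u) (by
      have e1 : (Fintype.card (Fin s × Fin 3) : ℝ) ≤ 3 * 2 ^ u := by
        rw [Fintype.card_prod, Fintype.card_fin, Fintype.card_fin]
        push_cast
        linarith
      have e2 : 12 * ((4 * u : ℕ) : ℝ) * q3 = 1 / 1152 := by
        rw [hq3]
        push_cast
        field_simp
        norm_num
      rw [e2, hq3]
      exact num3 hu e1)
  refine ⟨cmp ρ2 τ3, fun g => rs (nw C t ρ2 F2 f g) τ3, ?_, ?_, hsem3.restrict τ3⟩
  · have e1 : ((st ρ).card : ℝ) * q1 / 4 * q2 / 4 * q3 / 4 ≤ (st (cmp ρ2 τ3)).card := by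
      refine le_trans ?_ hst3
      have h1 : ((st ρ).card : ℝ) * q1 / 4 * q2 / 4 ≤ (st ρ2).card := by
        refine le_trans ?_ hcard2
        apply div_le_div_of_nonneg_right _ (by norm_num)
        exact mul_le_mul_of_nonneg_right hst1 hq20.le
      apply div_le_div_of_nonneg_right _ (by norm_num)
      exact mul_le_mul_of_nonneg_right h1 hq30.le
    have e2 : ((st ρ).card : ℝ) * q1 / 4 * q2 / 4 * q3 / 4 =
        (st ρ).card * γ / (438244169232678912 * (l * u ^ 3)) := by
      rw [hq1, hq2, hq3]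
      field_simp
      ring
    rw [e2, div_le_iff₀ (by positivity)] at e1
    refine e1.trans ?_
    rw [mul_comm]
    apply mul_le_mul_of_nonneg_right _ (Nat.cast_nonneg _)
    apply mul_le_mul_of_nonneg_right _ (by positivity)
    norm_num
  · intro g hg
    by_cases hlt : C.level g < t
    · have h1 : nw C t ρ2 F2 f g = F2 g := funext fun y => nw_lt hlt y
      simp only [h1]
      exact hasDT_rs (hF2j g hlt) τ3
    · have hgt : C.level g = t := by omega
      by_cases ha : IsAsk (C.gate g)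
      · have h1 : nw C t ρ2 F2 f g = fun y =>
            (A1 C t ρ2 F2 g y || (A2 C t ρ2 F2 g y && A3 C t ρ2 F2 f g y)) :=
          funext fun y => nw_ask hlt ha y
        simp only [h1]
        have j1 := hτ3 (g, 0)
        have j2 := hτ3 (g, 1)
        have j3 := hτ3 (g, 2)
        simp only [hgt, if_true] at j1
        simp only [hgt, if_true, one_ne_zero, if_false] at j2
        simp only [hgt, if_true, show (2 : Fin 3) ≠ 0 by decide, show (2 : Fin 3) ≠ 1 by decide,
          if_false] at j3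
        have h2 := hasDT_op (fun a b => a || b) j1 (hasDT_op (fun a b => a && b) j2 j3)
        exact (show HasDT _ _ from h2).mono (by omega)
      · have h1 : nw C t ρ2 F2 f g = fun y => ordv (C.gate g) (ov ρ2 y) fun h => F2 h y :=
          funext fun y => nw_ord hlt ha y
        simp only [h1]
        exact (hasDT_rs (hord2 g hgt.le) τ3).mono (by omega)

end Pool.Agent.N587.OX
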