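import Pool.Agent.N587.OT.Sem
import Pool.Agent.TH163.AC3.Sw

set_option autoImplicit false
set_option linter.unusedSectionVars false

/-!
Decision trees: composition and restriction.
-/

namespace Pool.Agent.N587.OX

open Finset H568R2 Pool.Agent.TH163.AC3 Pool.Agent.N587.OT

variable {I : Type} [Fintype I] [DecidableEq I]

/-- decision trees -/
abbrev DTree (I : Type) : Type := TH163.AC3.Tree I

theorem reads_node (i : I) (a b : DTree I) (x : I → Bool) :
    (TH163.AC3.Tree.node i a b).reads x =
      insert i (if x i = true then b.reads x else a.reads x) := rfl

/-- first the tree `a`, then the tree `b` -/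
def seq : DTree I → DTree I → DTree I
  | TH163.AC3.Tree.leaf _, b => b
  | TH163.AC3.Tree.node i a₁ a₂, b => TH163.AC3.Tree.node i (seq a₁ b) (seq a₂ b)

theorem reads_seq (a b : DTree I) (x : I → Bool) : (seq a b).reads x = a.reads x ∪ b.reads x := by
  induction a with
  | leaf c => simp [seq, TH163.AC3.Tree.reads]
  | node i a₁ a₂ h1 h2 =>
    unfold seq
    rw [reads_node, reads_node]
    by_cases h : x i = true
    · rw [if_pos h, if_pos h, h2, insert_union]
    · rw [if_neg h, if_neg h, h1, insert_union]

/-- one tree after the other -/
def big : List (DTree I) → DTree I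
  | [] => TH163.AC3.Tree.leaf false
  | t :: L => seq t (big L)

theorem mem_big {L : List (DTree I)} {x : I → Bool} {i : I} :
    i ∈ (big L).reads x ↔ ∃ t ∈ L, i ∈ t.reads x := by
  induction L with
  | nil => simp [big, TH163.AC3.Tree.reads]
  | cons t L ih =>
    unfold big
    rw [reads_seq, mem_union, ih]
    simp

theorem reads_big_ofFn {r : ℕ} (T : Fin r → DTree I) (x : I → Bool) :
    (big (List.ofFn T)).reads x = univ.biUnion fun j => (T j).reads x := by
  ext i
  rw [mem_big, mem_biUnion]
  constructor
  · rintro ⟨t, ht, hi⟩
    obtain ⟨j, hj⟩ := (List.mem_ofFn' T t).1 ht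
    exact ⟨j, mem_univ j, hj ▸ hi⟩
  · rintro ⟨j, _, hi⟩
    exact ⟨T j, (List.mem_ofFn' T (T j)).2 ⟨j, rfl⟩, hi⟩

theorem card_big {r D : ℕ} (T : Fin r → DTree I) (hT : ∀ j x, ((T j).reads x).card ≤ D)
    (x : I → Bool) : ((big (List.ofFn T)).reads x).card ≤ r * D := by
  rw [reads_big_ofFn]
  refine card_biUnion_le.trans ((sum_le_card_nsmul _ _ _ fun j _ => hT j x).trans ?_)
  rw [card_univ, Fintype.card_fin, smul_eq_mul]

/-- **the collapse of a tree under a restriction**: if the tree reads at most `k` free variables
then every function which depends only on what is read has depth at most `k` -/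
theorem dt_collapse (T : DTree I) : ∀ (π : Restr I) (k : ℕ) (f : (I → Bool) → Bool),
    (∀ x, (T.reads (ov π x) ∩ st π).card ≤ k) →
    (∀ x y, (∀ i ∈ T.reads (ov π x), ov π y i = ov π x i) → f (ov π y) = f (ov π x)) →
    HasDT k (rs f π) := by
  induction T with
  | leaf c =>
    intro π k f _ hf
    apply hasDT_const (f (ov π fun _ => false))
    intro x
    exact hf (fun _ => false) x (by simp [TH163.AC3.Tree.reads])
  | node i a b ha hb =>
    intro π k f hk hf
    cases hπ : π i with
    | some v =>
      have hov : ∀ x, ov π x i = v := by
        intro x
        unfold ov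
        rw [hπ]
        rfl
      cases v with
      | false =>
        apply ha π k f
        · intro x
          refine le_trans (card_le_card ?_) (hk x)
          apply inter_subset_inter_right
          rw [reads_node, if_neg (by rw [hov]; simp)]
          exact subset_insert _ _
        · intro x y hxy
          apply hf
          intro j hj
          rw [reads_node, if_neg (by rw [hov]; simp), mem_insert] at hj
          rcases hj with hj | hj
          · rw [hj, hov, hov]
          · exact hxy j hj
      | true =>
        apply hb π k f
        · intro x
          refine le_trans (card_le_card ?_) (hk x)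
          apply inter_subset_inter_right
          rw [reads_node, if_pos (hov x)]
          exact subset_insert _ _
        · intro x y hxy
          apply hf
          intro j hj
          rw [reads_node, if_pos (hov x), mem_insert] at hj
          rcases hj with hj | hj
          · rw [hj, hov, hov]
          · exact hxy j hj
    | none =>
      -- the restriction with one more variable fixed
      have hup : ∀ (v : Bool) (x : I → Bool), ov (Function.update π i (some v)) x =
          ov π (Function.update x i v) := by
        intro v x
        funext j
        unfold ov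
        by_cases hj : j = i
        · subst hj
          simp [hπ]
        · simp [hj]
      have hst : ∀ v : Bool, st (Function.update π i (some v)) = (st π).erase i := by
        intro v
        ext j
        rw [mem_erase, mem_st, mem_st]
        by_cases hj : j = i
        · subst hj
          simp
        · simp [hj]
      have hval : ∀ (v : Bool) (x : I → Bool), ov π (Function.update x i v) i = v := by
        intro v x
        unfold ov
        rw [hπ]
        simp
      have hsub : ∀ (v : Bool) (x : I → Bool), (TH163.AC3.Tree.node i a b).reads
          (ov π (Function.update x i v)) = insert i (if v = true then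
            b.reads (ov π (Function.update x i v)) else
            a.reads (ov π (Function.update x i v))) := by
        intro v x
        rw [reads_node, hval]
      have hcard : ∀ (v : Bool) (x : I → Bool), ((if v = true then
            b.reads (ov π (Function.update x i v)) else
            a.reads (ov π (Function.update x i v))) ∩ (st π).erase i).card + 1 ≤ k := by
        intro v x
        refine le_trans ?_ (hk (Function.update x i v))
        rw [hsub]
        have hi : i ∉ (if v = true then
            b.reads (ov π (Function.update x i v)) else
            a.reads (ov π (Function.update x i v))) ∩ (st π).erase i := by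
          rw [mem_inter, mem_erase]
          exact fun h => h.2.1 rfl
        rw [← card_insert_of_notMem hi]
        apply card_le_card
        intro j hj
        rw [mem_insert, mem_inter, mem_erase] at hj
        rw [mem_inter, mem_insert]
        rcases hj with hj | hj
        · rw [hj]
          exact ⟨Or.inl rfl, mem_st.2 hπ⟩
        · exact ⟨Or.inr hj.1, hj.2.2⟩
      have hk1 : 1 ≤ k := by
        have := hcard false fun _ => false
        omega
      have h0 : HasDT (k - 1) (rs f (Function.update π i (some false))) := by
        apply ha
        · intro x
          rw [hst, hup]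
          have := hcard false x
          simp only [Bool.false_eq_true, if_false] at this
          omega
        · intro x y hxy
          rw [hup, hup] at hxy ⊢
          apply hf
          intro j hj
          rw [hsub, mem_insert] at hj
          rcases hj with hj | hj
          · rw [hj, hval, hval]
          · simp only [Bool.false_eq_true, if_false] at hj
            exact hxy j hj
      have h1 : HasDT (k - 1) (rs f (Function.update π i (some true))) := by
        apply hb
        · intro x
          rw [hst, hup]
          have := hcard true x
          simp only [if_true] at this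
          omega
        · intro x y hxy
          rw [hup, hup] at hxy ⊢
          apply hf
          intro j hj
          rw [hsub, mem_insert] at hj
          rcases hj with hj | hj
          · rw [hj, hval, hval]
          · simp only [if_true] at hj
            exact hxy j hj
      obtain ⟨t0, ht0, he0⟩ := h0
      obtain ⟨t1, ht1, he1⟩ := h1
      refine ⟨TH163.AC3.Tree.node i t0 t1, ?_, ?_⟩
      · unfold TH163.AC3.Tree.depth
        have := max_le ht0 ht1
        omega
      · intro x
        unfold TH163.AC3.Tree.eval
        by_cases hx : x i = true
        · rw [if_pos hx, he1]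
          show f (ov (Function.update π i (some true)) x) = f (ov π x)
          rw [hup, ← hx, Function.update_eq_self]
        · have hx' : x i = false := by simpa using hx
          rw [if_neg hx, he0]
          show f (ov (Function.update π i (some false)) x) = f (ov π x)
          rw [hup, ← hx', Function.update_eq_self]

theorem hasDT_rs {k : ℕ} {f : (I → Bool) → Bool} (h : HasDT k f) (τ : Restr I) :
    HasDT k (rs f τ) := by
  obtain ⟨t, ht, he⟩ := h
  apply dt_collapse t τ k f
  · intro x
    exact (card_le_card inter_subset_left).trans ((t.card_reads _).trans ht)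
  · intro x y hxy
    rw [← he, ← he]
    exact (t.congr _ _ hxy).1

theorem hasDT_op (op : Bool → Bool → Bool) {a b : ℕ} {f g : (I → Bool) → Bool}
    (hf : HasDT a f) (hg : HasDT b g) : HasDT (a + b) fun y => op (f y) (g y) := by
  obtain ⟨t, ht, he⟩ := hf
  obtain ⟨t', ht', he'⟩ := hg
  have h1 : ∀ x : I → Bool, ov (fun _ : I => (none : Option Bool)) x = x := fun x => rfl
  have h2 := dt_collapse (seq t t') (fun _ => none) (a + b) (fun y => op (f y) (g y)) (by
    intro x
    refine (card_le_card inter_subset_left).trans ?_
    rw [reads_seq]
    refine (card_union_le _ _).trans ?_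
    have e1 := t.card_reads (ov (fun _ : I => (none : Option Bool)) x)
    have e2 := t'.card_reads (ov (fun _ : I => (none : Option Bool)) x)
    omega) (by
    intro x y hxy
    rw [h1, h1] at hxy ⊢
    rw [reads_seq] at hxy
    show op (f y) (g y) = op (f x) (g x)
    rw [← he, ← he, ← he', ← he', (t.congr x y fun i hi => hxy i (mem_union_left _ hi)).1,
      (t'.congr x y fun i hi => hxy i (mem_union_right _ hi)).1])
  exact h2

/-- all functions of a family with small certificates get shallow decision trees -/
theorem restr_dt {ι : Type} [Fintype ι] (f : ι → (I → Bool) → Bool) {c : ℕ}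
    (hf : ∀ j, ∃ b, Cert c b (f j)) (ρ : Restr I) {q : ℝ} (h0 : 0 < q) (h1 : q ≤ 1 / 3)
    (hM : 0 < (st ρ).card) {k : ℕ}
    (hk : (Fintype.card ι : ℝ) * (12 * c * q) ^ (k + 1) ≤ q / 2) :
    ∃ τ : Restr I, (∀ j, HasDT k (rs (f j) τ)) ∧
      ((st ρ).card : ℝ) * q / 4 ≤ (st (cmp ρ τ)).card := by
  classical
  have hw : ∀ a, 0 ≤ wq q a := wq_nonneg h0.le (by linarith)
  obtain ⟨bad, hbd⟩ : ∃ bad : Restr I → Prop, bad = fun τ => ¬ ∀ j, HasDT k (rs (f j) τ) :=
    ⟨_, rfl⟩
  obtain ⟨τ, hτ, hst⟩ := exists_good ρ bad h0 h1 hM (by
    have hpt : ∀ τ : Restr I, (if bad τ then (1 : ℝ) else 0) ≤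
        ∑ j, if ¬ HasDT k (rs (f j) τ) then (1 : ℝ) else 0 := by
      intro τ
      have hnn : ∀ j ∈ (univ : Finset ι),
          (0 : ℝ) ≤ if ¬ HasDT k (rs (f j) τ) then (1 : ℝ) else 0 := by
        intro j _
        split_ifs <;> norm_num
      by_cases hall : bad τ
      swap
      · rw [if_neg hall]
        exact sum_nonneg hnn
      · rw [if_pos hall]
        rw [hbd] at hall
        push Not at hall
        obtain ⟨j, hj⟩ := hall
        refine le_trans ?_ (Finset.single_le_sum hnn (mem_univ j))
        rw [if_pos hj]
    refine (Ex_mono hw hpt).trans ?_
    rw [Ex_sum univ (wq q) fun (j : ι) (τ : Restr I) =>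
      if ¬ HasDT k (rs (f j) τ) then (1 : ℝ) else 0]
    have h2 : ∀ j ∈ (univ : Finset ι), Ex (wq q) (fun τ : Restr I =>
        if ¬ HasDT k (rs (f j) τ) then (1 : ℝ) else 0) ≤ (12 * c * q) ^ (k + 1) := by
      intro j _
      obtain ⟨b, hb⟩ := hf j
      exact switching' h0.le h1 hb
    refine (sum_le_card_nsmul _ _ _ h2).trans ?_
    rw [nsmul_eq_mul, card_univ]
    exact hk)
  rw [hbd] at hτ
  exact ⟨τ, not_not.1 hτ, hst⟩

end Pool.Agent.N587.OX
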